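import Pool.Agent.TH8.UDE.Sys

/-!
Linear difference equations: infinitesimal symmetries which move given functions.
-/

set_option autoImplicit false

namespace Pool.Agent.TH8.UDE

open MvPolynomial Filter Pool.Agent.TH143.DE

variable {n : ℕ} {B : Subalgebra ℂ (ℕ → ℂ)}

/-- **A symmetry which moves given functions.** -/
theorem exists_beta_sum {I : Ideal (ℕ → ℂ)} (hI : EZ ≤ I) {K : Type} [Field K]
    [Algebra ((ℕ → ℂ) ⧸ I) K] [IsDomain ((ℕ → ℂ) ⧸ I)] [IsFractionRing ((ℕ → ℂ) ⧸ I) K]
    (D : K → K) (hadd : ∀ x y, D (x + y) = D x + D y)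
    (hmul : ∀ x y, D (x * y) = x * D y + y * D x)
    (hDB : ∀ b ∈ B, D (algebraMap ((ℕ → ℂ) ⧸ I) K (cl I b)) = 0)
    (U : ℕ → Matrix (Fin n) (Fin n) ℂ) (hdet : ∀ᶠ m in atTop, (U m).det ≠ 0)
    (L : Submodule ℂ (Matrix (Fin n) (Fin n) ℂ)) {k : ℕ}
    (P : Fin k → MvPolynomial (Fin n × Fin n) B) (hP : ∀ i, P i ∈ JU B U)
    (hL : ∀ᶠ m in atTop, LinearMap.ker (Tm U P m) = L)
    {q : ℕ} (c : Fin q → ℕ → ℂ) (G0 G1 : Fin q → MvPolynomial (Fin n × Fin n) ℂ)
    (hG : ∑ j, algebraMap ((ℕ → ℂ) ⧸ I) K (cl I (c j)) *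
      (D (algebraMap ((ℕ → ℂ) ⧸ I) K (cl I fun m => eval (mv (U m)) (G1 j))) *
        algebraMap ((ℕ → ℂ) ⧸ I) K (cl I fun m => eval (mv (U m)) (G0 j)) -
      algebraMap ((ℕ → ℂ) ⧸ I) K (cl I fun m => eval (mv (U m)) (G1 j)) *
        D (algebraMap ((ℕ → ℂ) ⧸ I) K (cl I fun m => eval (mv (U m)) (G0 j)))) ≠ 0) :
    ∃ β ∈ L, (fun m => ∑ j, c j m * (eval (mv (U m)) (Dc β (G1 j)) * eval (mv (U m)) (G0 j) -
        eval (mv (U m)) (G1 j) * eval (mv (U m)) (Dc β (G0 j)))) ∉ I := by
  classical
  set a := algebraMap ((ℕ → ℂ) ⧸ I) K with ha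
  have hinj : Function.Injective a := IsFractionRing.injective _ K
  obtain ⟨s, hs⟩ := IsLocalization.exist_integer_multiples_of_finset
    (nonZeroDivisors ((ℕ → ℂ) ⧸ I)) (Finset.univ.image fun p : Fin n × Fin n =>
      D (a (cl I fun m => U m p.1 p.2)))
  have hs' : ∀ p : Fin n × Fin n, ∃ h : ℕ → ℂ, a (cl I h) =
      a s * D (a (cl I fun m => U m p.1 p.2)) := by
    intro p
    obtain ⟨h, hh⟩ := hs _ (Finset.mem_image_of_mem _ (Finset.mem_univ p))
    obtain ⟨h', rfl⟩ := Ideal.Quotient.mk_surjective h
    refine ⟨h', ?_⟩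
    rw [← ha] at hh
    change a (Ideal.Quotient.mk I h') = _
    rw [hh, Algebra.smul_def]
  choose h hh using hs'
  have key : ∀ P : MvPolynomial (Fin n × Fin n) B,
      a (cl I fun m => ∑ p, eval (mv (U m)) (pderiv p (at' m P)) * h p m) =
        a s * D (a (cl I fun m => eval (mv (U m)) (at' m P))) := by
    intro P
    induction P using MvPolynomial.induction_on with
    | C c =>
      have h1 : (fun m => eval (mv (U m)) (at' m (C c : MvPolynomial (Fin n × Fin n) B))) =
          (c : ℕ → ℂ) := by
        funext m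
        rw [at'_C, eval_C]
      have h2 : (fun m => ∑ p, eval (mv (U m)) (pderiv p (at' m (C c :
          MvPolynomial (Fin n × Fin n) B))) * h p m) = 0 := by
        funext m
        refine Finset.sum_eq_zero fun p _ => ?_
        rw [at'_C, pderiv_C, map_zero, zero_mul]
      rw [h1, h2, hDB _ c.2, mul_zero, map_zero, map_zero]
    | add p q hp hq =>
      have h1 : (fun m => eval (mv (U m)) (at' m (p + q))) =
          (fun m => eval (mv (U m)) (at' m p)) + fun m => eval (mv (U m)) (at' m q) := by
        funext m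
        rw [map_add, map_add]
        rfl
      have h2 : (fun m => ∑ i, eval (mv (U m)) (pderiv i (at' m (p + q))) * h i m) =
          (fun m => ∑ i, eval (mv (U m)) (pderiv i (at' m p)) * h i m) +
            fun m => ∑ i, eval (mv (U m)) (pderiv i (at' m q)) * h i m := by
        funext m
        rw [Pi.add_apply, ← Finset.sum_add_distrib]
        refine Finset.sum_congr rfl fun i _ => ?_
        rw [map_add, map_add, map_add, add_mul]
      rw [h1, h2, map_add, map_add, hp, hq, map_add, map_add, hadd, mul_add]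
    | mul_X p j hp =>
      have h1 : (fun m => eval (mv (U m)) (at' m (p * X j))) =
          (fun m => eval (mv (U m)) (at' m p)) * fun m => U m j.1 j.2 := by
        funext m
        rw [map_mul, map_mul, at'_X, eval_X]
        rfl
      have h2 : (fun m => ∑ i, eval (mv (U m)) (pderiv i (at' m (p * X j))) * h i m) =
          (fun m => ∑ i, eval (mv (U m)) (pderiv i (at' m p)) * h i m) * (fun m => U m j.1 j.2) +
            (fun m => eval (mv (U m)) (at' m p)) * h j := by
        funext m
        rw [Pi.add_apply, Pi.mul_apply, Pi.mul_apply, Finset.sum_mul]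
        have h3 : ∀ i : Fin n × Fin n, eval (mv (U m)) (pderiv i (at' m (p * X j))) * h i m =
            eval (mv (U m)) (pderiv i (at' m p)) * h i m * U m j.1 j.2 +
              (if i = j then eval (mv (U m)) (at' m p) * h i m else 0) := by
          intro i
          rw [map_mul, at'_X, Derivation.leibniz, pderiv_X, smul_eq_mul, smul_eq_mul, map_add,
            map_mul, map_mul, eval_X]
          by_cases hij : i = j
          · subst hij
            rw [Pi.single_eq_same, map_one, if_pos rfl]
            change _ = _ * h i m * mv (U m) i + _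
            ring
          · rw [Pi.single_eq_of_ne (Ne.symm hij), map_zero, if_neg hij]
            change _ = _ * h i m * mv (U m) j + _
            ring
        rw [Finset.sum_congr rfl fun i _ => h3 i, Finset.sum_add_distrib, Finset.sum_ite_eq',
          if_pos (Finset.mem_univ j)]
      rw [h1, h2, map_add, map_mul, map_mul, map_add, map_mul, map_mul, hp, hh, map_mul, map_mul,
        hmul]
      ring
  -- the varying matrix
  set β : ℕ → Matrix (Fin n) (Fin n) ℂ := fun m => (U m)⁻¹ * Matrix.of fun i j => h (i, j) m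
    with hβ
  have hUβ : ∀ᶠ m in atTop, ∀ p : Fin n × Fin n, (U m * β m) p.1 p.2 = h p m := by
    filter_upwards [hdet] with m hm p
    rw [hβ]
    change (U m * ((U m)⁻¹ * Matrix.of fun i j => h (i, j) m)) p.1 p.2 = _
    rw [← Matrix.mul_assoc, Matrix.mul_nonsing_inv _ hm.isUnit, Matrix.one_mul]
    rfl
  have hD0 : D 0 = 0 := by
    have := hadd 0 0
    rw [add_zero] at this
    linear_combination - this
  obtain ⟨b, hb, hb'⟩ := exists_in_ker hI L (Tm U P) hL
    (fun m => ∑ j, c j m • Psi U (G0 j) (G1 j) m) β (fun i => by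
      have h1 := key (P i)
      have h2 : cl I (fun m => eval (mv (U m)) (at' m (P i))) = 0 := cl_zero.2 (hI (hP i))
      rw [h2, map_zero, hD0, mul_zero, map_eq_zero_iff a hinj, cl_zero] at h1
      have h3 : (fun m => Tm U P m (β m) i) -
          (fun m => ∑ p, eval (mv (U m)) (pderiv p (at' m (P i))) * h p m) ∈ I := by
        apply hI
        rw [mem_EZ]
        filter_upwards [hUβ] with m hm
        rw [Pi.sub_apply, sub_eq_zero]
        change ∑ p, _ = _
        exact Finset.sum_congr rfl fun p _ => by rw [hm p]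
      have h4 := I.add_mem h3 h1
      rwa [sub_add_cancel] at h4) (by
      intro hcon
      apply hG
      have h1 := fun j => key (cB B (G1 j))
      have h0 := fun j => key (cB B (G0 j))
      simp only [at'_cB] at h0 h1
      have h2 : (fun m => (∑ j, c j m • Psi U (G0 j) (G1 j) m) (β m)) -
          (∑ j, c j * ((fun m => ∑ p, eval (mv (U m)) (pderiv p (G1 j)) * h p m) *
            (fun m => eval (mv (U m)) (G0 j)) - (fun m => eval (mv (U m)) (G1 j)) *
              fun m => ∑ p, eval (mv (U m)) (pderiv p (G0 j)) * h p m)) ∈ I := by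
        apply hI
        rw [mem_EZ]
        filter_upwards [hUβ] with m hm
        rw [Pi.sub_apply, sub_eq_zero, Finset.sum_apply, LinearMap.sum_apply]
        refine Finset.sum_congr rfl fun j _ => ?_
        rw [LinearMap.smul_apply, smul_eq_mul, Pi.mul_apply, Pi.sub_apply, Pi.mul_apply,
          Pi.mul_apply]
        congr 1
        change (∑ p, eval (mv (U m)) (pderiv p (G1 j)) * (U m * β m) p.1 p.2) *
          eval (mv (U m)) (G0 j) - eval (mv (U m)) (G1 j) *
            (∑ p, eval (mv (U m)) (pderiv p (G0 j)) * (U m * β m) p.1 p.2) = _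
        congr 2
        · exact Finset.sum_congr rfl fun p _ => by rw [hm p]
        · exact Finset.sum_congr rfl fun p _ => by rw [hm p]
      have h3 := I.sub_mem hcon h2
      rw [sub_sub_cancel] at h3
      have h4 := cl_zero.2 h3
      have h5 := congrArg a h4
      simp only [map_zero, map_sum, map_mul, map_sub, h1, h0] at h5
      have hs0 : a s ≠ 0 := by
        rw [Ne, map_eq_zero_iff a hinj]
        exact nonZeroDivisors.ne_zero s.2
      have h6 : a s * ∑ j, a (cl I (c j)) * (D (a (cl I fun m => eval (mv (U m)) (G1 j))) *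
          a (cl I fun m => eval (mv (U m)) (G0 j)) - a (cl I fun m => eval (mv (U m)) (G1 j)) *
            D (a (cl I fun m => eval (mv (U m)) (G0 j)))) = 0 := by
        rw [← h5, Finset.mul_sum]
        exact Finset.sum_congr rfl fun j _ => by ring
      exact (mul_eq_zero.1 h6).resolve_left hs0)
  refine ⟨b, hb, ?_⟩
  simpa only [LinearMap.sum_apply, LinearMap.smul_apply, smul_eq_mul, Psi_apply] using hb'

end Pool.Agent.TH8.UDE
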