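import Pool.Agent.TH8.UDE.OneS
import Pool.Agent.TH8.UNI.Multi

/-!
Linear difference systems: symmetries in all directions.
-/

set_option autoImplicit false

namespace Pool.Agent.TH8.UDE

open MvPolynomial Filter Pool.Agent.TH143 Pool.Agent.TH143.DE

variable {n : ℕ} {B : Subalgebra ℂ (ℕ → ℂ)}

/-- a one-parameter family of symmetries -/
structure OneS (B : Subalgebra ℂ (ℕ → ℂ)) (U : ℕ → Matrix (Fin n) (Fin n) ℂ)
    (E : ℂ → Matrix (Fin n) (Fin n) ℂ) (η : Matrix (Fin n) (Fin n) ℂ) (μ : ℕ)
    (p : Fin n → Fin n → Polynomial ℂ) : Prop where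
  one : E 1 = 1
  laur : ∀ x, x ≠ 0 → ∀ k l, x ^ μ * E x k l = (p k l).eval x
  der : ∀ k l, HasDerivAt (fun x => E x k l) (η k l) 1
  gal : ∀ x, x ≠ 0 → GalS B U (E x)

/-- the direction given by a matrix -/
noncomputable def dirS (U : ℕ → Matrix (Fin n) (Fin n) ℂ) {w : ℕ}
    (G0 G1 : Fin w → MvPolynomial (Fin n × Fin n) ℂ) (η : Matrix (Fin n) (Fin n) ℂ)
    (l : Fin w) : ℕ → ℂ := fun m =>
  eval (mv (U m)) (Dc η (G1 l)) * eval (mv (U m)) (G0 l) -
    eval (mv (U m)) (G1 l) * eval (mv (U m)) (Dc η (G0 l))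

/-- **Families of symmetries in all directions.** -/
theorem all_dirs_seq (hB : CoefField B) (A : Fin n → Fin n → B)
    (U : ℕ → Matrix (Fin n) (Fin n) ℂ)
    (hU : ∀ᶠ m in atTop, U (m + 1) = Am A m * U m) (hdet : ∀ᶠ m in atTop, (U m).det ≠ 0)
    {I : Ideal (ℕ → ℂ)} (hI : EZ ≤ I) {K : Type} [Field K]
    [Algebra ((ℕ → ℂ) ⧸ I) K] [IsDomain ((ℕ → ℂ) ⧸ I)] [IsFractionRing ((ℕ → ℂ) ⧸ I) K]
    {w : ℕ} (D : Fin w → K → K) (hDadd : ∀ i x y, D i (x + y) = D i x + D i y)
    (hDmul : ∀ i x y, D i (x * y) = x * D i y + y * D i x)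
    (hDB : ∀ i, ∀ b ∈ B, D i (algebraMap ((ℕ → ℂ) ⧸ I) K (cl I b)) = 0)
    (G0 G1 : Fin w → MvPolynomial (Fin n × Fin n) ℂ) (u : Fin w → K) (hu : ∀ l, u l ≠ 0)
    (hG : ∀ i j, D i (algebraMap ((ℕ → ℂ) ⧸ I) K (cl I fun m => eval (mv (U m)) (G1 j))) *
        algebraMap ((ℕ → ℂ) ⧸ I) K (cl I fun m => eval (mv (U m)) (G0 j)) -
      algebraMap ((ℕ → ℂ) ⧸ I) K (cl I fun m => eval (mv (U m)) (G1 j)) *
        D i (algebraMap ((ℕ → ℂ) ⧸ I) K (cl I fun m => eval (mv (U m)) (G0 j))) =
          if i = j then u j else 0) :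
    ∃ (E : Fin w → ℂ → Matrix (Fin n) (Fin n) ℂ) (η : Fin w → Matrix (Fin n) (Fin n) ℂ)
      (μ : Fin w → ℕ) (p : Fin w → Fin n → Fin n → Polynomial ℂ),
      (∀ i, OneS B U (E i) (η i) (μ i) (p i)) ∧
      (Matrix.of fun i l => cl I (dirS U G0 G1 (η i) l)).det ≠ 0 := by
  classical
  set a := algebraMap ((ℕ → ℂ) ⧸ I) K with ha
  have key : ∀ r : ℕ, r ≤ w → ∃ (E : Fin r → ℂ → Matrix (Fin n) (Fin n) ℂ)
      (η : Fin r → Matrix (Fin n) (Fin n) ℂ) (μ : Fin r → ℕ)
      (p : Fin r → Fin n → Fin n → Polynomial ℂ),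
      (∀ i, OneS B U (E i) (η i) (μ i) (p i)) ∧
      LinearIndependent K (fun (i : Fin r) (l : Fin w) =>
        a (cl I (dirS U G0 G1 (η i) l))) := by
    intro r
    induction r with
    | zero =>
      intro _
      exact ⟨fun i => i.elim0, fun i => i.elim0, fun i => i.elim0, fun i => i.elim0,
        fun i => i.elim0, linearIndependent_empty_type⟩
    | succ r ih =>
      intro hr
      obtain ⟨E, η, μ, p, h1, h2⟩ := ih (by omega)
      set v : Fin r → Fin w → K := fun i l => a (cl I (dirS U G0 G1 (η i) l)) with hv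
      have hlt : Submodule.span K (Set.range v) < ⊤ := by
        rw [lt_top_iff_ne_top]
        intro h
        have h3 := finrank_span_eq_card h2
        rw [h, finrank_top, Module.finrank_fin_fun, Fintype.card_fin] at h3
        omega
      obtain ⟨φ, hφ0, hφ⟩ := Submodule.exists_le_ker_of_lt_top _ hlt
      obtain ⟨s, hs⟩ := IsLocalization.exist_integer_multiples_of_finset
        (nonZeroDivisors ((ℕ → ℂ) ⧸ I))
        (Finset.univ.image (fun l : Fin w => φ (Pi.single l 1)))
      have hs' : ∀ l : Fin w, ∃ h : ℕ → ℂ, a (cl I h) = a s * φ (Pi.single l 1) := by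
        intro l
        obtain ⟨h, hh⟩ := hs _ (Finset.mem_image_of_mem _ (Finset.mem_univ l))
        obtain ⟨h', rfl⟩ := Ideal.Quotient.mk_surjective h
        refine ⟨h', ?_⟩
        rw [← ha] at hh
        change a (Ideal.Quotient.mk I h') = _
        rw [hh, Algebra.smul_def]
      choose c hc using hs'
      have hs0 : a s ≠ 0 := by
        intro h0
        exact nonZeroDivisors.ne_zero s.2
          (IsFractionRing.injective ((ℕ → ℂ) ⧸ I) K (by rw [← ha, h0, map_zero]))
      have hφe : ∀ x : Fin w → K, a s * φ x = ∑ l, a (cl I (c l)) * x l := by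
        intro x
        have h3 : x = ∑ l, x l • (Pi.single l 1 : Fin w → K) := by
          funext l
          rw [Finset.sum_apply, Finset.sum_eq_single l]
          · simp
          · intro j _ hj
            simp [Ne.symm hj]
          · intro h
            exact absurd (Finset.mem_univ _) h
        conv_lhs => rw [h3]
        rw [map_sum, Finset.mul_sum]
        refine Finset.sum_congr rfl fun l _ => ?_
        rw [map_smul, smul_eq_mul, hc]
        ring
      obtain ⟨l0, hl0⟩ : ∃ l, a (cl I (c l)) ≠ 0 := by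
        by_contra hcon
        push Not at hcon
        apply hφ0
        apply LinearMap.ext
        intro x
        have h3 := hφe x
        rw [Finset.sum_eq_zero fun l _ => by rw [hcon, zero_mul]] at h3
        exact (mul_eq_zero.1 h3).resolve_left hs0
      obtain ⟨E', η', μ', p', e1, e2, e3, e4, e5⟩ := one_param_seq hB A U hU hdet hI (K := K)
        (D l0) (hDadd l0) (hDmul l0) (hDB l0) c G0 G1 (by
          simp only [← ha, hG, mul_ite, mul_zero]
          rw [Finset.sum_ite_eq, if_pos (Finset.mem_univ _)]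
          exact mul_ne_zero hl0 (hu l0))
      refine ⟨Fin.cons E' E, Fin.cons η' η, Fin.cons μ' μ, Fin.cons p' p, fun i => ?_, ?_⟩
      · induction i using Fin.cases with
        | zero => exact ⟨e1, e2, e3, e4⟩
        | succ i => exact h1 i
      · have h3 : (fun (i : Fin (r + 1)) (l : Fin w) => a (cl I
            (dirS U G0 G1 ((Fin.cons η' η : Fin (r + 1) → Matrix (Fin n) (Fin n) ℂ) i) l))) =
            Fin.cons (fun l => a (cl I (dirS U G0 G1 η' l))) v := by
          funext i
          induction i using Fin.cases with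
          | zero => rfl
          | succ i => rfl
        rw [h3, linearIndependent_finCons]
        refine ⟨h2, fun hmem => ?_⟩
        have h4 := hφ hmem
        rw [LinearMap.mem_ker] at h4
        have h5 := hφe fun l => a (cl I (dirS U G0 G1 η' l))
        rw [h4, mul_zero] at h5
        apply e5
        rw [← cl_zero]
        apply IsFractionRing.injective ((ℕ → ℂ) ⧸ I) K
        rw [map_zero, h5]
        have h6 : cl I (fun m => ∑ j, c j m * (eval (mv (U m)) (Dc η' (G1 j)) *
            eval (mv (U m)) (G0 j) - eval (mv (U m)) (G1 j) * eval (mv (U m)) (Dc η' (G0 j)))) =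
            ∑ l, cl I (c l) * cl I (dirS U G0 G1 η' l) := by
          rw [← Finset.sum_congr rfl fun l _ => map_mul (cl I) _ _, ← map_sum]
          congr 1
          funext m
          rw [Finset.sum_apply]
          rfl
        rw [h6, map_sum]
        exact Finset.sum_congr rfl fun l _ => map_mul _ _ _
  obtain ⟨E, η, μ, p, h1, h2⟩ := key w le_rfl
  refine ⟨E, η, μ, p, h1, ?_⟩
  intro h0
  have h3 : (Matrix.of fun i l => a (cl I (dirS U G0 G1 (η i) l))).det = 0 := by
    have h4 := congrArg a h0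
    rw [map_zero, RingHom.map_det] at h4
    exact h4
  have h4 : IsUnit (Matrix.of fun i l => a (cl I (dirS U G0 G1 (η i) l))) :=
    Matrix.linearIndependent_rows_iff_isUnit.1 h2
  rw [Matrix.isUnit_iff_isUnit_det, h3] at h4
  exact not_isUnit_zero h4

end Pool.Agent.TH8.UDE
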