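import Pool.Agent.TH8.UDE.DirsS
import Pool.Agent.TH8.UNI.Spread

/-!
Linear difference systems: families with many parameters over the ring of germs of sequences.
-/

set_option autoImplicit false

namespace Pool.Agent.TH8.UDE

open MvPolynomial Filter Topology Pool.Agent.TH143 Pool.Agent.TH143.DE Pool.Agent.TH8.UNI

variable {n : ℕ} {B : Subalgebra ℂ (ℕ → ℂ)}

/-- the product of the one-parameter families -/
theorem exists_prod {w : ℕ} {U : ℕ → Matrix (Fin n) (Fin n) ℂ}
    (E : Fin w → ℂ → Matrix (Fin n) (Fin n) ℂ) (η : Fin w → Matrix (Fin n) (Fin n) ℂ)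
    (μ : Fin w → ℕ) (p : Fin w → Fin n → Fin n → Polynomial ℂ)
    (hE : ∀ i, OneS B U (E i) (η i) (μ i) (p i)) :
    ∃ (PM : Matrix (Fin n) (Fin n) (MvPolynomial (Fin w) ℂ))
      (Eb : (Fin w → ℂ) → Matrix (Fin n) (Fin n) ℂ),
      (∀ x : Fin w → ℂ, (∀ i, x i ≠ 0) → GalS B U (Eb x) ∧
        ∀ k l, eval x (PM k l) = (∏ i, x i ^ μ i) * Eb x k l) ∧
      (∀ k l, eval (fun _ => 1) (PM k l) = (1 : Matrix (Fin n) (Fin n) ℂ) k l) ∧
      ∀ i k l, eval (fun _ => 1) (pderiv i (PM k l)) =
        (μ i : ℂ) * (1 : Matrix (Fin n) (Fin n) ℂ) k l + η i k l := by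
  classical
  let Mp : Fin w → Matrix (Fin n) (Fin n) (MvPolynomial (Fin w) ℂ) := fun i =>
    Matrix.of fun k l => Polynomial.aeval (X i : MvPolynomial (Fin w) ℂ) (p i k l)
  let PM := (List.ofFn Mp).prod
  let Eb : (Fin w → ℂ) → Matrix (Fin n) (Fin n) ℂ := fun x => (List.ofFn fun i => E i (x i)).prod
  have hPM : ∀ x : Fin w → ℂ, (∀ i, x i ≠ 0) → PM.map (eval x) =
      (∏ i, x i ^ μ i) • Eb x := by
    intro x hx
    have h1 : PM.map (eval x) = (List.ofFn fun i => (Mp i).map (eval x)).prod :=
      prod_map ((eval x).mapMatrix : Matrix (Fin n) (Fin n) (MvPolynomial (Fin w) ℂ) →+* _) Mp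
    rw [h1, ← prod_smul]
    congr 2
    funext i
    ext k l
    rw [Matrix.map_apply, Matrix.smul_apply, smul_eq_mul, (hE i).laur (x i) (hx i)]
    simp only [Mp, Matrix.of_apply]
    rw [Polynomial.aeval_def, Polynomial.hom_eval₂, eval_X, Polynomial.eval₂_eq_eval_map]
    congr 1
    conv_rhs => rw [← Polynomial.map_id (p := p i k l)]
    congr 1
    ext c
    simp
  have hEb : ∀ x : Fin w → ℂ, (∀ i, x i ≠ 0) → GalS B U (Eb x) := by
    intro x hx
    exact prod_ind (GalS B U) GalS.one (fun _ _ h1 h2 => h1.mul h2) fun i => (hE i).gal _ (hx i)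
  have hEb1 : Eb (fun _ => 1) = 1 := prod_ones fun i => (hE i).one
  have hEbu : ∀ i t, Eb (Function.update (fun _ => 1) i t) = E i t := by
    intro i t
    have h1 := prod_single (g := fun j => E j (Function.update (fun _ => (1 : ℂ)) i t j)) i (by
      intro j hj
      rw [Function.update_of_ne hj]
      exact (hE j).one)
    simp only [Eb]
    rw [h1, Function.update_self]
  have hPMx : ∀ x : Fin w → ℂ, (∀ i, x i ≠ 0) → ∀ k l,
      eval x (PM k l) = (∏ i, x i ^ μ i) * Eb x k l := by
    intro x hx k l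
    have h1 := congrFun (congrFun (hPM x hx) k) l
    rwa [Matrix.map_apply, Matrix.smul_apply, smul_eq_mul] at h1
  refine ⟨PM, Eb, fun x hx => ⟨hEb x hx, hPMx x hx⟩, fun k l => ?_, fun i k l => ?_⟩
  · rw [hPMx _ fun _ => one_ne_zero, hEb1]
    simp only [one_pow, Finset.prod_const_one, one_mul]
  · have h1 := pderiv_eval (PM k l) i
    have h2 : (fun t => eval (Function.update (fun _ => 1) i t) (PM k l)) =ᶠ[𝓝 1]
        fun t => t ^ μ i * E i t k l := by
      filter_upwards [isOpen_ne.mem_nhds (one_ne_zero (α := ℂ))] with t ht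
      have hx : ∀ j, Function.update (fun _ => (1 : ℂ)) i t j ≠ 0 := by
        intro j
        by_cases hj : j = i
        · subst hj
          rw [Function.update_self]
          exact ht
        · rw [Function.update_of_ne hj]
          exact one_ne_zero
      rw [hPMx _ hx, hEbu]
      congr 1
      rw [Finset.prod_eq_single i]
      · rw [Function.update_self]
      · intro j _ hj
        rw [Function.update_of_ne hj, one_pow]
      · intro h
        exact absurd (Finset.mem_univ _) h
    have h5 := (hasDerivAt_pow (μ i) (1 : ℂ)).mul ((hE i).der k l)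
    have h6 := (h1.congr_of_eventuallyEq h2.symm).unique h5
    rw [h6, (hE i).one]
    simp

/-- the algebra map to the ring of germs of sequences -/
theorem cl_const {I : Ideal (ℕ → ℂ)} (a : ℂ) : cl I (fun _ => a) = algebraMap ℂ ((ℕ → ℂ) ⧸ I) a :=
  rfl

theorem cl_eval {I : Ideal (ℕ → ℂ)} {κ : Type} (f : κ → ℕ → ℂ) (G : MvPolynomial κ ℂ) :
    aeval (fun j => cl I (f j)) G = cl I fun m => eval (fun j => f j m) G := by
  have h1 := MvPolynomial.comp_aeval_apply (f := f) (mk' I) G
  have h2 : (aeval f G : ℕ → ℂ) = fun m => eval (fun j => f j m) G := by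
    funext m
    have h7 := MvPolynomial.comp_aeval_apply (f := f) (Pi.evalAlgHom ℂ (fun _ : ℕ => ℂ) m) G
    have h8 : (aeval f G : ℕ → ℂ) m = aeval (fun i => f i m) G := h7
    rw [h8, MvPolynomial.aeval_eq_eval]
  rw [h2] at h1
  exact h1.symm

/-- **The family with many parameters**, over the ring of germs of sequences. -/
theorem multi_family_seq {N w : ℕ} {I : Ideal (ℕ → ℂ)} (hI : EZ ≤ I)
    [IsDomain ((ℕ → ℂ) ⧸ I)] {U : ℕ → Matrix (Fin n) (Fin n) ℂ}
    (E : Fin w → ℂ → Matrix (Fin n) (Fin n) ℂ) (η : Fin w → Matrix (Fin n) (Fin n) ℂ)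
    (μ : Fin w → ℕ) (p : Fin w → Fin n → Fin n → Polynomial ℂ)
    (hE : ∀ i, OneS B U (E i) (η i) (μ i) (p i)) (L : Fin (N + 1) → Fin n → Fin n → ℂ) :
    ∃ W : Fin (N + 1) → MvPolynomial (Fin w) ((ℕ → ℂ) ⧸ I),
      (∀ R : MvPolynomial (Fin (N + 1)) ℂ, (∃ d, R.IsHomogeneous d) →
        (∀ᶠ m in atTop, eval (fun j => ∑ k, ∑ l, L j k l * U m k l) R = 0) → aeval W R = 0) ∧
      (∀ j, eval (fun _ => 1) (W j) = cl I fun m => ∑ k, ∑ l, L j k l * U m k l) ∧
      ∀ (i : Fin w) (j : Fin w → Fin (N + 1)) (i0 : Fin (N + 1)) (l : Fin w),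
        eval (fun _ => 1) (pderiv i (W (j l)) * W i0 - W (j l) * pderiv i (W i0)) =
        cl I (dirS U (fun _ => ∑ k, ∑ l, C (L i0 k l) * X (k, l))
          (fun l' => ∑ k, ∑ l, C (L (j l') k l) * X (k, l)) (η i) l) := by
  classical
  obtain ⟨PM, Eb, h1, h2, h3⟩ := exists_prod E η μ p hE
  set α := algebraMap ℂ ((ℕ → ℂ) ⧸ I) with hα
  let W : Fin (N + 1) → MvPolynomial (Fin w) ((ℕ → ℂ) ⧸ I) := fun j =>
    ∑ k, ∑ l, C (α (L j k l)) * ∑ k', C (cl I fun m => U m k k') * map α (PM k' l)
  have hev : ∀ (x : Fin w → ℂ) (Q : MvPolynomial (Fin w) ℂ),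
      eval (fun i => α (x i)) (map α Q) = α (eval x Q) := by
    intro x Q
    rw [map_eval]
    rfl
  have hev1 : ∀ Q : MvPolynomial (Fin w) ℂ, eval (fun _ => 1) (map α Q) = α (eval (fun _ => 1) Q) := by
    intro Q
    rw [← hev]
    congr 2
  -- values
  have hW : ∀ x : Fin w → ℂ, (∀ i, x i ≠ 0) → ∀ j, eval (fun i => α (x i)) (W j) =
      cl I fun m => (∏ i, x i ^ μ i) * ∑ k, ∑ l, L j k l * (U m * Eb x) k l := by
    intro x hx j
    have e1 : (fun m => (∏ i, x i ^ μ i) * ∑ k, ∑ l, L j k l * (U m * Eb x) k l) =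
        ∑ k, ∑ l, (fun _ => L j k l) * ∑ k', (fun m => U m k k') *
          fun _ => (∏ i, x i ^ μ i) * Eb x k' l := by
      funext m
      simp only [Finset.sum_apply, Pi.mul_apply, Finset.mul_sum, Matrix.mul_apply]
      refine Finset.sum_congr rfl fun k _ => Finset.sum_congr rfl fun l _ =>
        Finset.sum_congr rfl fun k' _ => ?_
      ring
    rw [e1]
    simp only [W, map_sum, map_mul, eval_C, hev, (h1 x hx).2, cl_const]
    rfl
  have hWR : ∀ (R : MvPolynomial (Fin (N + 1)) ℂ) (x : Fin w → ((ℕ → ℂ) ⧸ I)),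
      eval x (aeval W R) = aeval (fun j => eval x (W j)) R := by
    intro R x
    have h4 := MvPolynomial.comp_aeval_apply (f := W)
      ((aeval x : MvPolynomial (Fin w) ((ℕ → ℂ) ⧸ I) →ₐ[(ℕ → ℂ) ⧸ I] _).restrictScalars ℂ) R
    exact h4
  refine ⟨W, ?_, ?_, ?_⟩
  · rintro R ⟨dR, hR⟩ hRz
    apply MvPolynomial.funext_set (fun _ => α '' {0}ᶜ)
      (fun _ => (Set.infinite_of_finite_compl (by simp)).image α.injective.injOn)
    intro x hx
    choose t ht0 ht using fun i => hx i (Set.mem_univ i)
    have hxt : x = fun i => α (t i) := funext fun i => (ht i).symm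
    rw [hxt, map_zero, hWR]
    have ht0' : ∀ i, t i ≠ 0 := ht0
    have e1 : (fun j => eval (fun i => α (t i)) (W j)) = fun j => cl I fun m =>
        (∏ i, t i ^ μ i) * ∑ k, ∑ l, L j k l * (U m * Eb t) k l := funext fun j => hW t ht0' j
    rw [e1, cl_eval, cl_zero]
    apply hI
    -- the relation
    let RB : MvPolynomial (Fin n × Fin n) B := map (algebraMap ℂ B)
      (bind₁ (fun j => ∑ k, ∑ l, C (L j k l) * X (k, l)) R)
    have hRB : ∀ (V : Matrix (Fin n) (Fin n) ℂ) (m : ℕ), eval (mv V) (at' m RB) =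
        eval (fun j => ∑ k, ∑ l, L j k l * V k l) R := by
      intro V m
      have e2 : at' m RB = bind₁ (fun j => ∑ k, ∑ l, C (L j k l) * X (k, l)) R := by
        simp only [RB, at']
        rw [MvPolynomial.mapAlgHom_apply, MvPolynomial.map_map]
        have e3 : ((evm B m : B →+* ℂ).comp (algebraMap ℂ B)) = RingHom.id ℂ := by
          ext c
          rfl
        rw [e3, MvPolynomial.map_id]
      rw [e2, eval, eval₂Hom_bind₁]
      have e4 : (fun i => eval₂Hom (RingHom.id ℂ) (mv V)
          (∑ k, ∑ l, C (L i k l) * X (k, l))) = fun j => ∑ k, ∑ l, L j k l * V k l := by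
        funext j
        simp only [map_sum, map_mul, eval₂Hom_C, eval₂Hom_X', RingHom.id_apply]
        rfl
      rw [e4]
      rfl
    have hRJ : RB ∈ JU B U := by
      rw [mem_JU]
      filter_upwards [hRz] with m hm
      rw [hRB]
      exact hm
    change ∀ᶠ m in atTop, _
    filter_upwards [(h1 t ht0').1 RB hRJ] with m hm
    rw [hRB] at hm
    rw [Pool.Agent.TH143.GT.eval_smul_homog hR, hm, mul_zero]
  · intro j
    have e1 : (fun m => ∑ k, ∑ l, L j k l * U m k l) =
        ∑ k, ∑ l, (fun _ => L j k l) * ∑ k', (fun m => U m k k') *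
          fun _ => (1 : Matrix (Fin n) (Fin n) ℂ) k' l := by
      funext m
      simp only [Finset.sum_apply, Pi.mul_apply]
      refine Finset.sum_congr rfl fun k _ => Finset.sum_congr rfl fun l _ => ?_
      congr 1
      rw [Finset.sum_eq_single l]
      · rw [Matrix.one_apply_eq, mul_one]
      · intro k' _ hk
        rw [Matrix.one_apply_ne hk, mul_zero]
      · intro h
        exact absurd (Finset.mem_univ _) h
    rw [e1]
    simp only [W, map_sum, map_mul, eval_C, hev1, h2, cl_const]
    rfl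
  · intro i j i0 l
    have hv : ∀ j, eval (fun _ => 1) (W j) = cl I fun m => ∑ k, ∑ l, L j k l * U m k l := by
      intro j
      have e1 : (fun m => ∑ k, ∑ l, L j k l * U m k l) =
          ∑ k, ∑ l, (fun _ => L j k l) * ∑ k', (fun m => U m k k') *
            fun _ => (1 : Matrix (Fin n) (Fin n) ℂ) k' l := by
        funext m
        simp only [Finset.sum_apply, Pi.mul_apply]
        refine Finset.sum_congr rfl fun k _ => Finset.sum_congr rfl fun l _ => ?_
        congr 1
        rw [Finset.sum_eq_single l]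
        · rw [Matrix.one_apply_eq, mul_one]
        · intro k' _ hk
          rw [Matrix.one_apply_ne hk, mul_zero]
        · intro h
          exact absurd (Finset.mem_univ _) h
      rw [e1]
      simp only [W, map_sum, map_mul, eval_C, hev1, h2, cl_const]
      rfl
    have hd : ∀ j, eval (fun _ => 1) (pderiv i (W j)) = cl I fun m =>
        ∑ k, ∑ l, L j k l * ((μ i : ℂ) * U m k l + (U m * η i) k l) := by
      intro j
      have e1 : (fun m => ∑ k, ∑ l, L j k l * ((μ i : ℂ) * U m k l + (U m * η i) k l)) =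
          ∑ k, ∑ l, (fun _ => L j k l) * ∑ k', (fun m => U m k k') *
            fun _ => ((μ i : ℂ) * (1 : Matrix (Fin n) (Fin n) ℂ) k' l + η i k' l) := by
        funext m
        simp only [Finset.sum_apply, Pi.mul_apply]
        refine Finset.sum_congr rfl fun k _ => Finset.sum_congr rfl fun l _ => ?_
        congr 1
        simp only [mul_add, Finset.sum_add_distrib, Matrix.mul_apply]
        congr 1
        rw [Finset.sum_eq_single l]
        · rw [Matrix.one_apply_eq, mul_one, mul_comm]
        · intro k' _ hk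
          rw [Matrix.one_apply_ne hk, mul_zero, mul_zero]
        · intro h
          exact absurd (Finset.mem_univ _) h
      rw [e1]
      have e2 : pderiv i (W j) = ∑ k, ∑ l, C (α (L j k l)) * ∑ k', C (cl I fun m => U m k k') *
          map α (pderiv i (PM k' l)) := by
        simp only [W, map_sum, pderiv_C_mul, pderiv_map]
      rw [e2]
      simp only [map_sum, map_mul, eval_C, hev1, h3, cl_const]
      rfl
    rw [map_sub, map_mul, map_mul, hv, hv, hd, hd, ← map_mul, ← map_mul, ← map_sub]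
    congr 1
    funext m
    have hD : ∀ j, eval (mv (U m)) (Dc (η i) (∑ k, ∑ l, C (L j k l) * X (k, l))) =
        ∑ k, ∑ l, L j k l * (U m * η i) k l := by
      intro j
      have e3 : Dc (η i) (∑ k, ∑ l, C (L j k l) * X (k, l)) =
          ∑ k, ∑ l, C (L j k l) * Wc (η i) (k, l) := by
        unfold Dc
        rw [map_sum]
        refine Finset.sum_congr rfl fun k _ => ?_
        rw [map_sum]
        refine Finset.sum_congr rfl fun l _ => ?_
        rw [Derivation.leibniz, derivation_C, mkDerivation_X, smul_zero, add_zero, smul_eq_mul]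
      rw [e3]
      simp only [map_sum, map_mul, eval_C]
      refine Finset.sum_congr rfl fun k _ => Finset.sum_congr rfl fun l _ => ?_
      rw [eval_Wc]
    have hE' : ∀ j, eval (mv (U m)) (∑ k, ∑ l, C (L j k l) * X (k, l)) =
        ∑ k, ∑ l, L j k l * U m k l := by
      intro j
      simp only [map_sum, map_mul, eval_C, eval_X]
      rfl
    simp only [dirS]
    rw [hD, hD, hE', hE']
    simp only [Pi.sub_apply, Pi.mul_apply]
    have e4 : ∀ j, ∑ k, ∑ l, L j k l * ((μ i : ℂ) * U m k l + (U m * η i) k l) =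
        (μ i : ℂ) * ∑ k, ∑ l, L j k l * U m k l + ∑ k, ∑ l, L j k l * (U m * η i) k l := by
      intro j
      simp only [Finset.mul_sum, ← Finset.sum_add_distrib]
      refine Finset.sum_congr rfl fun k _ => Finset.sum_congr rfl fun l _ => ?_
      ring
    rw [e4, e4]
    ring

/-- **Specialization of parametrizations.** -/
theorem specialize' {k F : Type} [Field k] [IsAlgClosed k] [Field F] [Algebra k F] {N w : ℕ}
    (W : Fin (N + 1) → MvPolynomial (Fin w) F) (T : Set (MvPolynomial (Fin (N + 1)) k))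
    (hT : ∀ G ∈ T, aeval W G = 0) (i0 : Fin (N + 1))
    (j : Fin w → Fin (N + 1)) (hJ : jac i0 j W ≠ 0) :
    ∃ W' : Fin (N + 1) → MvPolynomial (Fin w) k, (∀ G ∈ T, aeval W' G = 0) ∧ jac i0 j W' ≠ 0 := by
  classical
  let S : Finset F := (Finset.univ.biUnion fun i => (W i).coeffs) ∪ {(jac i0 j W)⁻¹}
  let A : Subalgebra k F := Algebra.adjoin k (S : Set F)
  have hfin : Algebra.FiniteType k A := A.fg_iff_finiteType.1 (Subalgebra.fg_adjoin_finset S)
  obtain ⟨ψ⟩ := exists_point (k := k) A
  have hlift : ∀ i, ∃ P : MvPolynomial (Fin w) A, map (A.val : A →+* F) P = W i := by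
    intro i
    have h1 : W i ∈ Set.range (map (σ := Fin w) (A.val : A →+* F)) := by
      rw [mem_range_map_iff_coeffs_subset]
      intro c hc
      exact ⟨⟨c, Algebra.subset_adjoin (by
        rw [Finset.mem_coe, Finset.mem_union, Finset.mem_biUnion]
        exact Or.inl ⟨i, Finset.mem_univ i, hc⟩)⟩, rfl⟩
    exact h1
  choose WA hWA using hlift
  have hWA' : (fun i => map (A.val : A →+* F) (WA i)) = W := funext hWA
  refine ⟨fun i => map (ψ : A →+* k) (WA i), fun G hG => ?_, ?_⟩
  · have h1 : aeval WA G = 0 := by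
      have h2 := MvPolynomial.comp_aeval_apply (f := WA) (MvPolynomial.mapAlgHom (σ := Fin w) A.val) G
      have h3 : (fun i => (MvPolynomial.mapAlgHom (σ := Fin w) A.val) (WA i)) = W :=
        funext fun i => hWA i
      rw [h3, hT G hG] at h2
      have h4 : map (A.val : A →+* F) (aeval WA G) = 0 := h2
      exact (map_injective (A.val : A →+* F) Subtype.val_injective) (by rw [h4, map_zero])
    have h2 := MvPolynomial.comp_aeval_apply (f := WA) (MvPolynomial.mapAlgHom (σ := Fin w) ψ) G
    rw [h1, map_zero] at h2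
    exact h2.symm
  · rw [jac_map]
    have h1 : (A.val : A →+* F) (jac i0 j WA) = jac i0 j W := by
      rw [← jac_map, hWA']
    let u : A := ⟨(jac i0 j W)⁻¹, Algebra.subset_adjoin (by
      rw [Finset.mem_coe, Finset.mem_union, Finset.mem_singleton]
      exact Or.inr rfl)⟩
    have h2 : jac i0 j WA * u = 1 := by
      apply Subtype.ext
      change (A.val : A →+* F) (jac i0 j WA) * (jac i0 j W)⁻¹ = 1
      rw [h1, mul_inv_cancel₀ hJ]
    intro h3
    have h4 := congrArg (ψ : A →+* k) h2
    rw [map_mul, h3, zero_mul, map_one] at h4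
    exact zero_ne_one h4

end Pool.Agent.TH8.UDE
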