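import Pool.Agent.TH8.UDE.DenseS

/-!
Sequences of points given by linear recurrences: the ambient variety is unirational.
-/

set_option autoImplicit false

namespace Pool.Agent.TH8.UDE

open MvPolynomial Filter Pool.Agent.TH143 Pool.Agent.TH143.DE Pool.Agent.TH8.UNI
  Pool.Agent.W602.GT

variable {B : Subalgebra ℂ (ℕ → ℂ)}

/-- `B` is closed under the backward shift, up to finitely many terms -/
def Back (B : Subalgebra ℂ (ℕ → ℂ)) : Prop :=
  ∀ b ∈ B, ∃ b' ∈ B, ∀ᶠ m in atTop, b' (m + 1) = b m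

theorem Back.iter (h : Back B) (s : ℕ) : ∀ b ∈ B, ∃ b' ∈ B, ∀ᶠ m in atTop, b' (m + s) = b m := by
  induction s with
  | zero => exact fun b hb => ⟨b, hb, Eventually.of_forall fun m => rfl⟩
  | succ s ih =>
    intro b hb
    obtain ⟨b1, hb1, h1⟩ := ih b hb
    obtain ⟨b2, hb2, h2⟩ := h b1 hb1
    refine ⟨b2, hb2, ?_⟩
    filter_upwards [h1, eventually_shift h2 s] with m h3 h4
    rw [← h3, ← h4]
    congr 1

/-- density of a shifted sequence -/
theorem DenseSeq.shift (hback : Back B) {N : ℕ} {Z : MvPolynomial (Fin (N + 1)) ℂ → Prop}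
    {x : ℕ → Fin (N + 1) → ℂ} (h : DenseSeq B Z x) (s : ℕ) {x' : ℕ → Fin (N + 1) → ℂ}
    (hx' : ∀ᶠ m in atTop, x' m = x (m + s)) : DenseSeq B Z x' := by
  intro q b hb hind e G hG hrel
  choose b' hb' hbe using fun i => hback.iter s (b i) (hb i)
  have hbe' : ∀ᶠ m in atTop, ∀ i, b' i (m + s) = b i m := eventually_all.2 hbe
  have hsh : ∀ {P : ℕ → Prop}, (∀ᶠ m in atTop, P (m + s)) → ∀ᶠ m in atTop, P m := by
    intro P hP
    obtain ⟨m0, hm0⟩ := eventually_atTop.1 hP
    refine eventually_atTop.2 ⟨m0 + s, fun m hm => ?_⟩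
    have h1 := hm0 (m - s) (by omega)
    rwa [Nat.sub_add_cancel (by omega)] at h1
  refine h q b' hb' (fun c hc => hind c ?_) e G hG (hsh ?_)
  · filter_upwards [eventually_shift hc s, hbe'] with m h1 h2
    rw [← h1]
    exact Finset.sum_congr rfl fun i _ => by rw [h2]
  · filter_upwards [hrel, hbe', hx'] with m h1 h2 h3
    rw [← h1]
    exact Finset.sum_congr rfl fun i _ => by rw [h2, h3]

/-- **The parametrization theorem.** Let `x` be a sequence of points of the projective variety with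
the generic point `y`, whose homogeneous coordinates satisfy linear recurrences over the field of
sequences `B`. If the sequence is Zariski-dense over `B`, then there is a polynomial map from the
affine space to the variety with a nonzero Jacobian. -/
theorem uni_seq (hB : CoefField B) (hback : Back B) {N : ℕ} {x : ℕ → Fin (N + 1) → ℂ}
    (hx : ∀ j, LinRec B (fun m => x m j)) {K : Type} [Field K] [Algebra ℂ K] {w : ℕ}
    {y : Fin (N + 1) → K} (hne : y ≠ 0) (hgen : coords ℂ y = ⊤) (hdim : Algebra.trdeg ℂ K = w)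
    (hrel : ∀ G : MvPolynomial (Fin (N + 1)) ℂ, IsForm G → W602.GT.val y G = 0 →
      ∀ᶠ m in atTop, eval (x m) G = 0)
    (hd : DenseSeq B (fun G => W602.GT.val y G = 0) x) :
    ∃ (i0 : Fin (N + 1)) (j : Fin w → Fin (N + 1)) (W : Fin (N + 1) → MvPolynomial (Fin w) ℂ),
      y i0 ≠ 0 ∧ IsTranscendenceBasis ℂ (fun l => y (j l) / y i0) ∧
      (∀ G : MvPolynomial (Fin (N + 1)) ℂ, IsForm G → W602.GT.val y G = 0 → aeval W G = 0) ∧
      jac i0 j W ≠ 0 := by
  classical
  obtain ⟨s, n, A, U, L, hU, hdet, hL⟩ := exists_sys_lin hB (fun j m => x m j) hx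
  let x' : ℕ → Fin (N + 1) → ℂ := fun m j => ∑ k, ∑ l, L j k l * U m k l
  have hx' : ∀ᶠ m in atTop, x' m = x (m + s) := by
    filter_upwards [hL] with m hm
    funext j
    exact (hm j).symm
  have hd' : DenseSeq B (fun G => W602.GT.val y G = 0) x' := hd.shift hback s hx'
  obtain ⟨i0, h0⟩ : ∃ i, y i ≠ 0 := Function.ne_iff.1 hne
  obtain ⟨j, hj⟩ := exists_coord_basis hgen hdim h0
  obtain ⟨I, hIp, hI, hprime⟩ := exists_prime hB.toCoefRing hd' h0 hj.1
  have hdom : IsDomain ((ℕ → ℂ) ⧸ I) := Ideal.Quotient.isDomain I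
  let F := FractionRing ((ℕ → ℂ) ⧸ I)
  obtain ⟨hx0, hind⟩ := indep_seq hB hI hprime (F := F)
  set a := algebraMap ((ℕ → ℂ) ⧸ I) F with ha
  obtain ⟨D, hD⟩ := dual_der hind
  have hpt : ∀ j m, eval (mv (U m)) (∑ k, ∑ l, C (L j k l) * X (k, l)) = x' m j := by
    intro j m
    simp only [map_sum, map_mul, eval_C, eval_X]
    rfl
  obtain ⟨Ef, η, μ, p, hE, hEd⟩ := all_dirs_seq hB A U hU hdet hI (K := F)
    (fun i => D i) (fun i x y => (D i).map_add x y)
    (fun i x y => by
      rw [(D i).leibniz, smul_eq_mul, smul_eq_mul])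
    (fun i b hb => (D i).map_algebraMap (⟨a (mk' I b), b, hb, rfl⟩ : cf hB hI F))
    (fun _ => ∑ k, ∑ l, C (L i0 k l) * X (k, l)) (fun l' => ∑ k, ∑ l, C (L (j l') k l) * X (k, l))
    (fun _ => a (cl I fun m => x' m i0) ^ 2) (fun _ => pow_ne_zero 2 hx0) (by
      intro i l
      simp only [hpt]
      have h1 := der_quot (D i) (a := a (cl I fun m => x' m (j l))) hx0
      rw [hD] at h1
      refine h1.trans ?_
      rw [mul_ite, mul_one, mul_zero])
  obtain ⟨W, hW1, hW2, hW3⟩ := multi_family_seq hI Ef η μ p hE L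
  have hinj : Function.Injective a := IsFractionRing.injective _ F
  have hjac : jac i0 j (fun i => map a (W i)) ≠ 0 := by
    rw [jac_map, Ne, map_eq_zero_iff a hinj]
    unfold jac
    apply mul_ne_zero
    · have h1 : (Matrix.of fun i l => eval (fun _ => 1)
          (pderiv i (W (j l)) * W i0 - W (j l) * pderiv i (W i0))) = Matrix.of fun i l =>
          cl I (dirS U (fun _ => ∑ k, ∑ l, C (L i0 k l) * X (k, l))
            (fun l' => ∑ k, ∑ l, C (L (j l') k l) * X (k, l)) (η i) l) := by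
        ext i l
        rw [Matrix.of_apply, Matrix.of_apply, hW3]
      rw [h1]
      exact hEd
    · rw [hW2]
      intro h1
      apply hx0
      have h2 : (fun m => ∑ k, ∑ l, L i0 k l * U m k l) = fun m => x' m i0 := rfl
      rw [← h2, h1, map_zero]
  obtain ⟨W', hW', hJ⟩ := specialize' (k := ℂ) (F := F) (fun i => map a (W i))
    {G | IsForm G ∧ W602.GT.val y G = 0} (by
      rintro G ⟨hG, hv⟩
      have h1 := hW1 G hG (by
        filter_upwards [eventually_shift (hrel G hG hv) s, hx'] with m h2 h3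
        have h4 : (fun j => ∑ k, ∑ l, L j k l * U m k l) = x' m := rfl
        rw [h4, h3]
        exact h2)
      have h2 := MvPolynomial.comp_aeval_apply (f := W)
        (MvPolynomial.mapAlgHom (σ := Fin w) (IsScalarTower.toAlgHom ℂ ((ℕ → ℂ) ⧸ I) F)) G
      rw [h1, map_zero] at h2
      exact h2.symm) i0 j hjac
  exact ⟨i0, j, W', h0, hj, fun G hG hv => hW' G ⟨hG, hv⟩, hJ⟩

/-- a parametrization gives an embedding of the function field -/
theorem uni_of_par {N w : ℕ} {K : Type} [Field K] [Algebra ℂ K] {y : Fin (N + 1) → K}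
    (hgen : coords ℂ y = ⊤) {i0 : Fin (N + 1)} {j : Fin w → Fin (N + 1)}
    {W : Fin (N + 1) → MvPolynomial (Fin w) ℂ} (h0 : y i0 ≠ 0)
    (hj : IsTranscendenceBasis ℂ (fun l => y (j l) / y i0))
    (hrel : ∀ G : MvPolynomial (Fin (N + 1)) ℂ, IsForm G → W602.GT.val y G = 0 → aeval W G = 0)
    (hJ : jac i0 j W ≠ 0) : Nonempty (K →ₐ[ℂ] FractionRing (MvPolynomial (Fin w) ℂ)) := by
  have hiff := fun G hG => par_iff h0 hj hrel (right_ne_zero_of_mul hJ) (left_ne_zero_of_mul hJ) G hG
  let FR := FractionRing (MvPolynomial (Fin w) ℂ)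
  have hinj : Function.Injective (algebraMap (MvPolynomial (Fin w) ℂ) FR) :=
    IsFractionRing.injective _ _
  have hval : ∀ G : MvPolynomial (Fin (N + 1)) ℂ,
      W602.GT.val (fun i => algebraMap _ FR (W i)) G = algebraMap _ FR (aeval W G) :=
    fun G => (MvPolynomial.comp_aeval_apply (f := W)
      (IsScalarTower.toAlgHom ℂ (MvPolynomial (Fin w) ℂ) FR) G).symm
  have h0' : algebraMap _ FR (W i0) ≠ 0 := by
    rw [Ne, map_eq_zero_iff _ hinj]
    intro h1
    apply right_ne_zero_of_mul hJ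
    rw [h1, map_zero]
  obtain ⟨φ, -⟩ := exists_embedding h0 h0' hgen (fun G hG => by
    rw [hval, map_eq_zero_iff _ hinj]
    exact hiff G hG)
  exact ⟨φ⟩

end Pool.Agent.TH8.UDE
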