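import Pool.Agent.TH8.UDE.Beta
import Pool.Agent.TH8.UNI.Prod

/-!
One-parameter families in the group of symmetries of a linear difference system.
-/

set_option autoImplicit false

namespace Pool.Agent.TH8.UDE

open MvPolynomial Filter Pool.Agent.TH143 Pool.Agent.TH143.DE

variable {n : ℕ} {B : Subalgebra ℂ (ℕ → ℂ)}

/-- the right translation by `g` preserves the relations -/
def GalS (B : Subalgebra ℂ (ℕ → ℂ)) (U : ℕ → Matrix (Fin n) (Fin n) ℂ)
    (g : Matrix (Fin n) (Fin n) ℂ) : Prop :=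
  ∀ P ∈ JU B U, ∀ᶠ m in atTop, eval (mv (U m * g)) (at' m P) = 0

theorem GalS.one {U : ℕ → Matrix (Fin n) (Fin n) ℂ} : GalS B U 1 := by
  intro P hP
  have h1 := mem_JU.1 hP
  simpa only [Matrix.mul_one] using h1

/-- translation of polynomials -/
noncomputable def TR (B : Subalgebra ℂ (ℕ → ℂ)) (g : Matrix (Fin n) (Fin n) ℂ) :
    MvPolynomial (Fin n × Fin n) B →ₐ[B] MvPolynomial (Fin n × Fin n) B :=
  aeval fun p => ∑ k, X (p.1, k) * C (algebraMap ℂ B (g k p.2))

theorem eval_TR (g V : Matrix (Fin n) (Fin n) ℂ) (m : ℕ) (P : MvPolynomial (Fin n × Fin n) B) :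
    eval (mv V) (at' m (TR B g P)) = eval (mv (V * g)) (at' m P) := by
  induction P using MvPolynomial.induction_on with
  | C b =>
    unfold TR
    rw [← algebraMap_eq, AlgHom.commutes, algebraMap_eq, at'_C, eval_C, eval_C]
  | add p q hp hq => simp only [map_add, hp, hq]
  | mul_X p j hp =>
    rw [map_mul, map_mul, map_mul, hp, map_mul, map_mul]
    congr 1
    unfold TR
    rw [aeval_X, map_sum, map_sum, at'_X, eval_X]
    change _ = (V * g) j.1 j.2
    rw [Matrix.mul_apply]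
    refine Finset.sum_congr rfl fun k _ => ?_
    rw [map_mul, at'_X, at'_C, map_mul, eval_X, eval_C]
    rfl

theorem GalS.mul {U : ℕ → Matrix (Fin n) (Fin n) ℂ} {g h : Matrix (Fin n) (Fin n) ℂ}
    (hg : GalS B U g) (hh : GalS B U h) : GalS B U (g * h) := by
  intro P hP
  have h1 : TR B h P ∈ JU B U := by
    rw [mem_JU]
    filter_upwards [hh P hP] with m hm
    rw [eval_TR, hm]
  filter_upwards [hg _ h1] with m hm
  rwa [eval_TR, Matrix.mul_assoc] at hm

theorem eval_Dc (β V : Matrix (Fin n) (Fin n) ℂ) (R : MvPolynomial (Fin n × Fin n) ℂ) :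
    eval (mv V) (Dc β R) = ∑ p, eval (mv V) (pderiv p R) * (V * β) p.1 p.2 := by
  unfold Dc
  rw [eval_mkDerivation]
  refine Finset.sum_congr rfl fun p _ => ?_
  rw [eval_Wc]

/-- **One-parameter families of symmetries**, in a given direction. -/
theorem one_param_seq (hB : CoefField B) (A : Fin n → Fin n → B)
    (U : ℕ → Matrix (Fin n) (Fin n) ℂ)
    (hU : ∀ᶠ m in atTop, U (m + 1) = Am A m * U m) (hdet : ∀ᶠ m in atTop, (U m).det ≠ 0)
    {I : Ideal (ℕ → ℂ)} (hI : EZ ≤ I) {K : Type} [Field K]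
    [Algebra ((ℕ → ℂ) ⧸ I) K] [IsDomain ((ℕ → ℂ) ⧸ I)] [IsFractionRing ((ℕ → ℂ) ⧸ I) K]
    (D : K → K) (hadd : ∀ x y, D (x + y) = D x + D y)
    (hmul : ∀ x y, D (x * y) = x * D y + y * D x)
    (hDB : ∀ b ∈ B, D (algebraMap ((ℕ → ℂ) ⧸ I) K (cl I b)) = 0)
    {q : ℕ} (c : Fin q → ℕ → ℂ) (G0 G1 : Fin q → MvPolynomial (Fin n × Fin n) ℂ)
    (hG : ∑ j, algebraMap ((ℕ → ℂ) ⧸ I) K (cl I (c j)) *
      (D (algebraMap ((ℕ → ℂ) ⧸ I) K (cl I fun m => eval (mv (U m)) (G1 j))) *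
        algebraMap ((ℕ → ℂ) ⧸ I) K (cl I fun m => eval (mv (U m)) (G0 j)) -
      algebraMap ((ℕ → ℂ) ⧸ I) K (cl I fun m => eval (mv (U m)) (G1 j)) *
        D (algebraMap ((ℕ → ℂ) ⧸ I) K (cl I fun m => eval (mv (U m)) (G0 j)))) ≠ 0) :
    ∃ (E : ℂ → Matrix (Fin n) (Fin n) ℂ) (η : Matrix (Fin n) (Fin n) ℂ) (μ : ℕ)
      (p : Fin n → Fin n → Polynomial ℂ), E 1 = 1 ∧
      (∀ x, x ≠ 0 → ∀ k l, x ^ μ * E x k l = (p k l).eval x) ∧
      (∀ k l, HasDerivAt (fun x => E x k l) (η k l) 1) ∧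
      (∀ x, x ≠ 0 → GalS B U (E x)) ∧
      (fun m => ∑ j, c j m * (eval (mv (U m)) (Dc η (G1 j)) * eval (mv (U m)) (G0 j) -
        eval (mv (U m)) (G1 j) * eval (mv (U m)) (Dc η (G0 j)))) ∉ I := by
  classical
  obtain ⟨L, k, P, hP, hgen, hL, hLW⟩ := lie hB A U hU
  obtain ⟨β, hβL, hβ⟩ := exists_beta_sum (B := B) hI D hadd hmul hDB U hdet L P hP hL c G0 G1 hG
  obtain ⟨ex, he0, he1, hEP⟩ := exists_exp_flow β
  have he : ExpF β ex := ⟨he0, he1⟩
  have hflow : ∀ R ∈ JU B U, ∀ᶠ m in atTop, ∀ t, eval (mv (U m * ex t)) (at' m R) = 0 :=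
    fun R hR => flow hP hgen (hLW β hβL) he hR
  -- common exponents
  let G : Fin n × Fin n → ℂ → ℂ := fun p t => ex t p.1 p.2
  have hGEP : ∀ o, EP (G o) := fun p => hEP p.1 p.2
  obtain ⟨r, g, P', hg, hP'⟩ := EP.common G hGEP
  let T : ℕ → Fin n × Fin n → MvPolynomial (Fin (r + 1)) ℂ := fun m p =>
    ∑ k, C (U m p.1 k) * P' (k, p.2)
  let Y : ℕ → (Fin (r + 1) → ℂ) → Fin n × Fin n → ℂ := fun m x l => eval x (T m l)
  have hYy : ∀ m t, Y m (Pool.Agent.H159R3.Exp.vec g t) = mv (U m * ex t) := by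
    intro m t
    funext l
    simp only [Y, T, map_sum, map_mul, eval_C, ← hP', mv, Matrix.mul_apply]
    rfl
  have hYT : ∀ m x (R : MvPolynomial (Fin n × Fin n) ℂ),
      eval (Y m x) R = eval x (bind₁ (T m) R) := by
    intro m x R
    rw [eval, eval, eval₂Hom_bind₁]
    rfl
  set v0 : Fin (r + 1) → ℂ := Pool.Agent.H159R3.Exp.vec g 0 with hv0
  have hvd : ∀ l, HasDerivAt (fun z => Pool.Agent.H159R3.Exp.vec g z l)
      ((Fin.cons 1 fun i => Complex.exp (g i 0) * deriv (g i) 0 : Fin (r + 1) → ℂ) l) 0 := by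
    intro l
    refine Fin.cases ?_ (fun i => ?_) l
    · simpa [Pool.Agent.H159R3.Exp.vec] using hasDerivAt_id' (0 : ℂ)
    · simpa [Pool.Agent.H159R3.Exp.vec] using ((hg i) 0).hasDerivAt.cexp
  have hder : ∀ (m : ℕ) (R : MvPolynomial (Fin n × Fin n) ℂ),
      eval (mv (U m)) (Dc β R) = ∑ l, eval v0 (pderiv l (bind₁ (T m) R)) *
        (Fin.cons 1 fun i => Complex.exp (g i 0) * deriv (g i) 0 : Fin (r + 1) → ℂ) l := by
    intro m R
    have h1 := he.hasDerivAt (U m) R 0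
    have h2 := Pool.Agent.H159R3.Exp.hasDerivAt_eval (Pool.Agent.H159R3.Exp.vec g) _ 0 hvd
      (bind₁ (T m) R)
    have h3 : (fun t => eval (mv (U m * ex t)) R) = fun t =>
        eval (Pool.Agent.H159R3.Exp.vec g t) (bind₁ (T m) R) := by
      funext t
      rw [← hYT, hYy]
    rw [h3, he0, Matrix.mul_one] at h1
    exact h1.unique h2
  obtain ⟨ξ, ξ', ea, pp, hξp, hξ1, hξR, hξd, hξn⟩ := exists_dir_seq g hg I
    (fun m l => ∑ j, c j m * (eval v0 (pderiv l (bind₁ (T m) (G1 j))) * eval (mv (U m)) (G0 j) -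
      eval (mv (U m)) (G1 j) * eval v0 (pderiv l (bind₁ (T m) (G0 j))))) (by
      have h1 : (fun m => ∑ j, c j m * (eval (mv (U m)) (Dc β (G1 j)) * eval (mv (U m)) (G0 j) -
          eval (mv (U m)) (G1 j) * eval (mv (U m)) (Dc β (G0 j)))) = fun s => ∑ l,
          (∑ j, c j s * (eval v0 (pderiv l (bind₁ (T s) (G1 j))) * eval (mv (U s)) (G0 j) -
            eval (mv (U s)) (G1 j) * eval v0 (pderiv l (bind₁ (T s) (G0 j))))) *
          (Fin.cons 1 (fun i => Complex.exp (g i 0) * deriv (g i) 0) : Fin (r + 1) → ℂ) l := by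
        funext s
        simp only [Finset.sum_mul]
        rw [Finset.sum_comm]
        refine Finset.sum_congr rfl fun j _ => ?_
        rw [hder, hder, Finset.sum_mul, Finset.mul_sum, ← Finset.sum_sub_distrib, Finset.mul_sum]
        exact Finset.sum_congr rfl fun l _ => by ring
      rw [h1] at hβ
      exact hβ)
  -- the family
  let E : ℂ → Matrix (Fin n) (Fin n) ℂ := fun x => Matrix.of fun k l => eval (ξ x) (P' (k, l))
  let η : Matrix (Fin n) (Fin n) ℂ := Matrix.of fun k l => ∑ i, eval (ξ 1) (pderiv i (P' (k, l))) * ξ' i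
  have hE1 : E 1 = 1 := by
    ext k l
    simp only [E, Matrix.of_apply]
    rw [hξ1, ← hP']
    simp only [G, he0]
  have hEd : ∀ k l, HasDerivAt (fun x => E x k l) (η k l) 1 := by
    intro k l
    exact Pool.Agent.H159R3.Exp.hasDerivAt_eval ξ ξ' 1 hξd (P' (k, l))
  have hPLξ : ∀ l, PL fun _ x => ξ x l := fun l => PL.laur fun x hx => hξp x hx l
  have hPLP : ∀ o, PL fun _ x => eval (ξ x) (P' o) := fun o => PL.eval hPLξ (P' o)
  obtain ⟨mE, pE, hpE⟩ := PL.common hPLP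
  have hYE : ∀ m x, Y m (ξ x) = mv (U m * E x) := by
    intro m x
    funext l
    simp only [Y, T, mv, map_sum, map_mul, eval_C, Matrix.mul_apply, E, Matrix.of_apply]
  refine ⟨E, η, mE, fun k l => (pE (k, l)).map (Pi.evalRingHom (fun _ : ℕ => ℂ) 0), hE1, ?_, hEd,
    ?_, ?_⟩
  · intro x hx k l
    have h1 := hpE 0 x hx (k, l)
    rw [evp_eq] at h1
    exact h1
  · intro x hx R hR
    filter_upwards [hflow R hR] with m hm
    rw [← hYE, hYT]
    apply hξR _ _ x hx
    intro t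
    rw [← hYT, hYy]
    exact hm t
  · intro h0
    apply hξn
    have hdR : ∀ (m : ℕ) (R : MvPolynomial (Fin n × Fin n) ℂ),
        eval (mv (U m)) (Dc η R) = ∑ l, eval v0 (pderiv l (bind₁ (T m) R)) * ξ' l := by
      intro m R
      have h1 := Pool.Agent.H159R3.Exp.hasDerivAt_eval ξ ξ' 1 hξd (bind₁ (T m) R)
      have h3 := Pool.Agent.H159R3.Exp.hasDerivAt_eval (fun x => mv (U m * E x))
        (fun p => (U m * η) p.1 p.2) 1 (by
          intro l
          simp only [mv, Matrix.mul_apply]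
          apply HasDerivAt.fun_sum
          intro k _
          exact (hEd k l.2).const_mul (U m l.1 k)) R
      have h4 : (fun x => eval (mv (U m * E x)) R) = fun x => eval (ξ x) (bind₁ (T m) R) := by
        funext x
        rw [← hYE, hYT]
      rw [h4] at h3
      have h5 := h3.unique h1
      rw [hE1, Matrix.mul_one, hξ1] at h5
      rw [eval_Dc]
      exact h5
    have h6 : (fun s => ∑ l, (∑ j, c j s * (eval v0 (pderiv l (bind₁ (T s) (G1 j))) *
        eval (mv (U s)) (G0 j) - eval (mv (U s)) (G1 j) *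
          eval v0 (pderiv l (bind₁ (T s) (G0 j))))) * ξ' l) =
        fun m => ∑ j, c j m * (eval (mv (U m)) (Dc η (G1 j)) * eval (mv (U m)) (G0 j) -
          eval (mv (U m)) (G1 j) * eval (mv (U m)) (Dc η (G0 j))) := by
      funext s
      simp only [Finset.sum_mul]
      rw [Finset.sum_comm]
      refine Finset.sum_congr rfl fun j _ => ?_
      rw [hdR, hdR, Finset.sum_mul, Finset.mul_sum, ← Finset.sum_sub_distrib, Finset.mul_sum]
      exact Finset.sum_congr rfl fun l _ => by ring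
    rw [h6]
    exact h0

end Pool.Agent.TH8.UDE
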