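import Pool.Agent.TH8.UDE.ConvS

/-!
Parametrizations of unirational varieties over finite extensions of the ground field.
-/

set_option autoImplicit false

namespace Pool.Agent.TH8.UDE

open MvPolynomial Topology Pool.Agent.TH143 Pool.Agent.TH143.GT Pool.Agent.TH143.DE
  Pool.Agent.TH8.UNI Pool.Agent.W602.GT
open Filter (atTop eventually_atTop Tendsto)

/-- the values of a polynomial in the points `(2 ^ m, 3 ^ m, 5 ^ m, ...)` -/
theorem eval_num_nat {n : ℕ} (Q : MvPolynomial (Fin n) ℂ) (m : ℕ) :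
    eval (fun l : Fin n => ((Nat.nth Nat.Prime l : ℕ) : ℂ) ^ m) Q =
      ∑ α ∈ Q.support, Q.coeff α * ((num α : ℕ) : ℂ) ^ m := by
  have h1 := eval_num Q (m : ℂ)
  simp only [Complex.cpow_natCast] at h1
  exact h1

/-- nonzero polynomials do not vanish in the points `(2 ^ m, 3 ^ m, 5 ^ m, ...)`, for large `m` -/
theorem ev_num_ne {n : ℕ} {Q : MvPolynomial (Fin n) ℂ} (hQ : Q ≠ 0) :
    ∀ᶠ m : ℕ in atTop, eval (fun l : Fin n => ((Nat.nth Nat.Prime l : ℕ) : ℂ) ^ m) Q ≠ 0 := by
  classical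
  obtain ⟨α0, hα0, hmax⟩ := Finset.exists_max_image Q.support num (support_nonempty.2 hQ)
  have hn0 : ((num α0 : ℕ) : ℂ) ≠ 0 := Nat.cast_ne_zero.2 (num_pos α0).ne'
  have h1 : Tendsto (fun m : ℕ => ∑ α ∈ Q.support,
      Q.coeff α * (((num α : ℕ) : ℂ) / ((num α0 : ℕ) : ℂ)) ^ m) atTop
      (𝓝 (∑ α ∈ Q.support, if α = α0 then Q.coeff α else 0)) := by
    apply tendsto_finsetSum
    intro α hα
    by_cases h : α = α0
    · subst h
      simp only [div_self hn0, one_pow, mul_one, if_true]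
      exact tendsto_const_nhds
    · rw [if_neg h]
      have h2 : num α < num α0 := lt_of_le_of_ne (hmax α hα) fun h3 => h (num_inj h3)
      have h3 : ‖((num α : ℕ) : ℂ) / ((num α0 : ℕ) : ℂ)‖ < 1 := by
        rw [norm_div, Complex.norm_natCast, Complex.norm_natCast, div_lt_one
          (Nat.cast_pos.2 (num_pos α0))]
        exact_mod_cast h2
      have h4 := (tendsto_pow_atTop_nhds_zero_of_norm_lt_one h3).const_mul (Q.coeff α)
      rwa [mul_zero] at h4
  rw [Finset.sum_ite_eq' Q.support α0, if_pos hα0] at h1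
  filter_upwards [h1.eventually_ne (mem_support_iff.1 hα0)] with m hm h0
  apply hm
  rw [eval_num_nat] at h0
  have h2 : ∑ α ∈ Q.support, Q.coeff α * (((num α : ℕ) : ℂ) / ((num α0 : ℕ) : ℂ)) ^ m =
      (∑ α ∈ Q.support, Q.coeff α * ((num α : ℕ) : ℂ) ^ m) / ((num α0 : ℕ) : ℂ) ^ m := by
    rw [Finset.sum_div]
    refine Finset.sum_congr rfl fun α _ => ?_
    rw [div_pow, mul_div_assoc]
  rw [h2, h0, zero_div]

/-- **Parametrizations over finite extensions.** -/
theorem par_finite (k : Type) [Field k] [Algebra k ℂ] {N : ℕ}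
    (T : Set (MvPolynomial (Fin (N + 1)) k)) (hT : ∀ G ∈ T, ∃ d, G.IsHomogeneous d)
    {p : Ideal (MvPolynomial (Fin (N + 1)) ℂ)} (hp : p = Ideal.span (map (algebraMap k ℂ) '' T))
    {K : Type} [Field K] [Algebra ℂ K] {w : ℕ} {y : Fin (N + 1) → K} (hy : FunField p 1 K w y)
    (h : Unirational K) :
    ∃ L : IntermediateField k ℂ, FiniteDimensional k L ∧
      ∃ V : Fin (N + 1) → MvPolynomial (Fin w) L, ∀ G : MvPolynomial (Fin (N + 1)) ℂ, IsForm G →
        (W602.GT.val y G = 0 ↔ aeval (fun i => map (algebraMap L ℂ) (V i)) G = 0) := by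
  classical
  obtain ⟨i0, j, W, e1, e2, e3, e4⟩ := uni_jac hy h
  let kb : IntermediateField k ℂ := algebraicClosure k ℂ
  have hkb : IsAlgClosed kb := (algebraicClosure.isAlgClosure k ℂ).1
  let T' : Set (MvPolynomial (Fin (N + 1)) kb) := map (algebraMap k kb) '' T
  obtain ⟨W', hW', hJ'⟩ := specialize (k := kb) W T' (by
    rintro _ ⟨G, hG, rfl⟩
    obtain ⟨d, hd⟩ := hT G hG
    have h1 : map (algebraMap kb ℂ) (map (algebraMap k kb) G) = map (algebraMap k ℂ) G := by
      rw [map_map, ← IsScalarTower.algebraMap_eq]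
    rw [h1]
    refine e3 _ ⟨d, hd.map _⟩ (hy.sub.mem _ ?_)
    rw [hp]
    exact Ideal.subset_span ⟨G, hG, rfl⟩) i0 j e4
  let W2 : Fin (N + 1) → MvPolynomial (Fin w) ℂ := fun i => map (algebraMap kb ℂ) (W' i)
  have hJ2 : jac i0 j W2 ≠ 0 := by
    have h1 : jac i0 j W2 = algebraMap kb ℂ (jac i0 j W') := jac_map _ _ _ _
    rw [h1, Ne, map_eq_zero]
    exact hJ'
  have hT2 : ∀ G ∈ p, aeval W2 G = 0 := by
    intro G hG
    have h1 : p ≤ RingHom.ker (aeval W2 : MvPolynomial (Fin (N + 1)) ℂ →ₐ[ℂ] _) := by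
      rw [hp, Ideal.span_le]
      rintro _ ⟨G, hG, rfl⟩
      change aeval W2 (map (algebraMap k ℂ) G) = 0
      have h2 : map (algebraMap kb ℂ) (map (algebraMap k kb) G) = map (algebraMap k ℂ) G := by
        rw [map_map, ← IsScalarTower.algebraMap_eq]
      have h3 := MvPolynomial.comp_aeval_apply (f := W')
        (MvPolynomial.mapAlgHom (σ := Fin w) (IsScalarTower.toAlgHom kb kb ℂ))
        (map (algebraMap k kb) G)
      rw [hW' _ ⟨G, hG, rfl⟩, map_zero] at h3
      rw [← h2]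
      have h4 : aeval W2 (map (algebraMap kb ℂ) (map (algebraMap k kb) G)) =
          aeval W2 (map (algebraMap k kb) G) := aeval_map_algebraMap ℂ W2 _
      rw [h4]
      exact h3.symm
    exact h1 hG
  have hiff := fun G hG => par_iff (y := y) e1 e2 (W := W2)
    (fun G hG hv => hT2 G (hy.mem G hG hv)) (right_ne_zero_of_mul hJ2) (left_ne_zero_of_mul hJ2) G hG
  let S : Finset ℂ := Finset.univ.biUnion fun i => (W2 i).coeffs
  have hSalg : ∀ x ∈ (S : Set ℂ), IsIntegral k x := by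
    intro x hx
    rw [Finset.mem_coe, Finset.mem_biUnion] at hx
    obtain ⟨i, -, hx⟩ := hx
    have h1 : x ∈ Set.range (algebraMap kb ℂ) := by
      have h2 : W2 i ∈ Set.range (map (σ := Fin w) (algebraMap kb ℂ)) := ⟨W' i, rfl⟩
      rw [mem_range_map_iff_coeffs_subset] at h2
      exact h2 hx
    obtain ⟨u, rfl⟩ := h1
    exact (mem_algebraicClosure_iff.1 u.2).isIntegral
  let L := IntermediateField.adjoin k (S : Set ℂ)
  have hlift : ∀ i, ∃ V : MvPolynomial (Fin w) L, map (algebraMap L ℂ) V = W2 i := by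
    intro i
    have h1 : W2 i ∈ Set.range (map (σ := Fin w) (algebraMap L ℂ)) := by
      rw [mem_range_map_iff_coeffs_subset]
      intro c hc
      exact ⟨⟨c, IntermediateField.subset_adjoin k _ (by
        rw [Finset.mem_coe, Finset.mem_biUnion]
        exact ⟨i, Finset.mem_univ i, hc⟩)⟩, rfl⟩
    exact h1
  choose V hV using hlift
  refine ⟨L, IntermediateField.finiteDimensional_adjoin hSalg, V, fun G hG => ?_⟩
  have h1 : (fun i => map (algebraMap L ℂ) (V i)) = W2 := funext hV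
  rw [h1]
  exact hiff G hG

end Pool.Agent.TH8.UDE
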