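import Pool.Agent.TH143.DE.Gen

/-!
Linear difference equations: the system of a sequence of points.
-/

set_option autoImplicit false

namespace Pool.Agent.TH8.UDE

open MvPolynomial Filter Pool.Agent.TH143.DE

variable {B : Subalgebra ℂ (ℕ → ℂ)}

/-- **The system**, with linear coordinates. -/
theorem exists_sys_lin (hB : CoefField B) {J : Type} [Fintype J] (f : J → ℕ → ℂ)
    (hf : ∀ j, LinRec B (f j)) :
    ∃ (s n : ℕ) (A : Fin n → Fin n → B) (U : ℕ → Matrix (Fin n) (Fin n) ℂ)
      (L : J → Fin n → Fin n → ℂ),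
      (∀ᶠ m in atTop, U (m + 1) = Am A m * U m) ∧ (∀ᶠ m in atTop, (U m).det ≠ 0) ∧
      ∀ᶠ m in atTop, ∀ j, f j (m + s) = ∑ k, ∑ l, L j k l * U m k l := by
  classical
  choose l hl using fun j => (hf j).normal hB
  set s := ∑ j, l j with hs
  have hls : ∀ j, l j ≤ s := fun j =>
    Finset.single_le_sum (f := l) (fun _ _ => Nat.zero_le _) (Finset.mem_univ j)
  choose r c hc hc0 using fun j => hl j s (hls j)
  let ι := Σ j, Fin (r j)
  set n := Fintype.card ι with hn
  let e : ι ≃ Fin n := Fintype.equivFin ι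
  let yi : ℕ → ι → ℂ := fun m p => f p.1 (m + p.2 + s)
  let y : ℕ → Fin n → ℂ := fun m i => yi m (e.symm i)
  have hy : ∀ m j (i : Fin (r j)), y m (e ⟨j, i⟩) = f j (m + i + s) := by
    intro m j i
    change yi m (e.symm (e ⟨j, i⟩)) = _
    rw [e.symm_apply_apply]
  let Ai : ι → ι → B := fun p x =>
    if (p.2 : ℕ) + 1 < r p.1 then (if x.1 = p.1 ∧ (x.2 : ℕ) = p.2 + 1 then 1 else 0)
    else (if x.1 = p.1 then c p.1 x.2 else 0)
  let A : Fin n → Fin n → B := fun i k => Ai (e.symm i) (e.symm k)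
  -- sums over the index set
  have hsum : ∀ (F : ι → ℂ), ∑ k, F (e.symm k) = ∑ j, ∑ i : Fin (r j), F ⟨j, i⟩ := by
    intro F
    rw [e.symm.sum_comp F, Fintype.sum_sigma]
  have hrow : ∀ (m : ℕ) (j : J) (i : Fin (r j)) (v : Fin n → ℂ),
      (Am A m).mulVec v (e ⟨j, i⟩) = if h : (i : ℕ) + 1 < r j then v (e ⟨j, ⟨i + 1, h⟩⟩) else
        ∑ i' : Fin (r j), (c j i' : ℕ → ℂ) m * v (e ⟨j, i'⟩) := by
    intro m j i v
    have h1 : (Am A m).mulVec v (e ⟨j, i⟩) = ∑ k, (fun x : ι =>
        ((Ai ⟨j, i⟩ x : B) : ℕ → ℂ) m * v (e x)) (e.symm k) := by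
      change ∑ k, ((Ai (e.symm (e ⟨j, i⟩)) (e.symm k) : B) : ℕ → ℂ) m * v k = _
      rw [e.symm_apply_apply]
      refine Finset.sum_congr rfl fun k _ => ?_
      change _ = _ * v (e (e.symm k))
      rw [e.apply_symm_apply]
    rw [h1, hsum (fun x : ι => ((Ai ⟨j, i⟩ x : B) : ℕ → ℂ) m * v (e x))]
    simp only [Ai]
    by_cases h : (i : ℕ) + 1 < r j
    · simp only [if_pos h, dif_pos h]
      rw [Finset.sum_eq_single j, Finset.sum_eq_single (⟨i + 1, h⟩ : Fin (r j))]
      · simp
      · intro b _ hb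
        have h2 : ¬ ((b : ℕ) = i + 1) := fun h3 => hb (Fin.ext h3)
        simp [h2]
      · intro h2
        exact absurd (Finset.mem_univ _) h2
      · intro b _ hb
        refine Finset.sum_eq_zero fun x _ => ?_
        simp [hb]
      · intro h2
        exact absurd (Finset.mem_univ _) h2
    · simp only [if_neg h, dif_neg h]
      rw [Finset.sum_eq_single j]
      · simp
      · intro b _ hb
        refine Finset.sum_eq_zero fun x _ => ?_
        simp [hb]
      · intro h2
        exact absurd (Finset.mem_univ _) h2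
  have hrec : ∀ᶠ m in atTop, y (m + 1) = (Am A m).mulVec (y m) := by
    have h1 : ∀ᶠ m in atTop, ∀ j, f j (m + r j + s) =
        ∑ i ∈ Finset.range (r j), (c j i : ℕ → ℂ) m * f j (m + i + s) :=
      eventually_all.2 fun j => hc j
    filter_upwards [h1] with m hm
    funext k
    obtain ⟨⟨j, i⟩, rfl⟩ := e.surjective k
    rw [hrow]
    simp only [hy]
    by_cases h : (i : ℕ) + 1 < r j
    · rw [dif_pos h]
      congr 1
      ring
    · rw [dif_neg h]
      have h2 : (i : ℕ) + 1 = r j := by have := i.2; omega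
      have h3 := hm j
      rw [Finset.sum_range] at h3
      rw [← h3]
      congr 1
      omega
  have hdetA : ∀ᶠ m in atTop, (Am A m).det ≠ 0 := by
    have h1 : ∀ᶠ m in atTop, ∀ j, 0 < r j → (c j 0 : ℕ → ℂ) m ≠ 0 := by
      refine eventually_all.2 fun j => ?_
      by_cases h : 0 < r j
      · filter_upwards [hc0 j h] with m hm _
        exact hm
      · exact Eventually.of_forall fun _ h' => absurd h' h
    filter_upwards [h1] with m hm h0
    obtain ⟨v, hv, hv0⟩ := Matrix.exists_mulVec_eq_zero_iff.2 h0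
    apply hv
    have h2 : ∀ (j : J) (i : Fin (r j)) (_ : 0 < (i : ℕ)), v (e ⟨j, i⟩) = 0 := by
      intro j i hi
      have h3 := congrFun hv0 (e ⟨j, ⟨i - 1, by have := i.2; omega⟩⟩)
      rw [hrow] at h3
      have h4 : ((⟨(i : ℕ) - 1, by have := i.2; omega⟩ : Fin (r j)) : ℕ) + 1 < r j := by
        change (i : ℕ) - 1 + 1 < r j
        have := i.2
        omega
      rw [dif_pos h4] at h3
      have h5 : (⟨((⟨(i : ℕ) - 1, by have := i.2; omega⟩ : Fin (r j)) : ℕ) + 1, h4⟩ :
          Fin (r j)) = i := by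
        apply Fin.ext
        change (i : ℕ) - 1 + 1 = i
        omega
      rw [h5] at h3
      exact h3
    funext k
    obtain ⟨⟨j, i⟩, rfl⟩ := e.surjective k
    by_cases hi : 0 < (i : ℕ)
    · exact h2 j i hi
    · have hr : 0 < r j := lt_of_le_of_lt (Nat.zero_le _) i.2
      have hi0 : i = ⟨0, hr⟩ := Fin.ext (by
        change (i : ℕ) = 0
        omega)
      have h3 := congrFun hv0 (e ⟨j, ⟨r j - 1, by omega⟩⟩)
      rw [hrow] at h3
      have h4 : ¬ ((⟨r j - 1, by omega⟩ : Fin (r j)) : ℕ) + 1 < r j := by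
        change ¬ (r j - 1 + 1 < r j)
        omega
      rw [dif_neg h4, Finset.sum_eq_single (⟨0, hr⟩ : Fin (r j))] at h3
      · rw [hi0]
        exact (mul_eq_zero.1 h3).resolve_left (hm j hr)
      · intro b _ hb
        rw [h2 j b, mul_zero]
        by_contra h5
        exact hb (Fin.ext (by
          change (b : ℕ) = 0
          omega))
      · intro h5
        exact absurd (Finset.mem_univ _) h5
  obtain ⟨m0, hm0⟩ := eventually_atTop.1 (hrec.and hdetA)
  let U : ℕ → Matrix (Fin n) (Fin n) ℂ := fun m => Nat.rec 1 (fun k V =>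
    if k < m0 then 1 else Am A k * V) m
  have hUs : ∀ m, m0 ≤ m → U (m + 1) = Am A m * U m := by
    intro m hm
    change (if m < m0 then 1 else Am A m * U m) = _
    rw [if_neg (not_lt.2 hm)]
  have hU0 : U m0 = 1 := by
    rcases Nat.eq_zero_or_pos m0 with h | h
    · rw [h]
      rfl
    · obtain ⟨k, rfl⟩ := Nat.exists_eq_add_of_le' h
      change (if k < k + 1 then 1 else Am A k * U k) = _
      rw [if_pos (Nat.lt_succ_self k)]
  have hUy : ∀ m, m0 ≤ m → (U m).det ≠ 0 ∧ y m = (U m).mulVec (y m0) := by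
    intro m hm
    induction m, hm using Nat.le_induction with
    | base => rw [hU0, Matrix.det_one, Matrix.one_mulVec]; exact ⟨one_ne_zero, rfl⟩
    | succ m hm ih =>
      rw [hUs m hm, Matrix.det_mul, (hm0 m hm).1, ih.2, Matrix.mulVec_mulVec]
      exact ⟨mul_ne_zero (hm0 m hm).2 ih.1, rfl⟩
  refine ⟨s, n, A, U, fun j k l => if h : 0 < r j then (if k = e ⟨j, ⟨0, h⟩⟩ then y m0 l else 0) else 0,
    eventually_atTop.2 ⟨m0, hUs⟩, eventually_atTop.2 ⟨m0, fun m hm => (hUy m hm).1⟩, ?_⟩
  have h1 : ∀ᶠ m in atTop, ∀ j, f j (m + r j + s) =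
      ∑ i ∈ Finset.range (r j), (c j i : ℕ → ℂ) m * f j (m + i + s) :=
    eventually_all.2 fun j => hc j
  filter_upwards [h1, eventually_ge_atTop m0] with m h1m hm j
  by_cases h : 0 < r j
  · have h2 := congrFun (hUy m hm).2 (e ⟨j, ⟨0, h⟩⟩)
    have h3 : y m (e ⟨j, ⟨0, h⟩⟩) = f j (m + s) := by
      rw [hy]
      rfl
    rw [← h3, h2]
    simp only [dif_pos h]
    rw [Finset.sum_eq_single (e ⟨j, ⟨0, h⟩⟩)]
    · simp only [if_true]
      change ∑ l, U m _ l * y m0 l = _
      exact Finset.sum_congr rfl fun l _ => mul_comm _ _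
    · intro k _ hk
      simp only [if_neg hk, zero_mul, Finset.sum_const_zero]
    · intro h4
      exact absurd (Finset.mem_univ _) h4
  · simp only [dif_neg h, zero_mul, Finset.sum_const_zero]
    have h2 : r j = 0 := by omega
    have h3 := h1m j
    rw [h2, Finset.range_zero, Finset.sum_empty, add_zero] at h3
    exact h3

end Pool.Agent.TH8.UDE
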