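import Pool.Agent.TH8.UDE.ParS

/-!
Unirational varieties and sequences of points given by linear recurrences.
-/

set_option autoImplicit false

namespace Pool.Agent.TH8.UDE

open MvPolynomial Topology Pool.Agent.TH143 Pool.Agent.TH143.GT Pool.Agent.TH143.DE
  Pool.Agent.TH8.UNI Pool.Agent.W602.GT
open Filter (atTop eventually_atTop Tendsto)

/-- the sequence of the points whose homogeneous coordinates are `∑ a j k * k ^ m` -/
noncomputable def dirSeq {N : ℕ} (M : ℕ) (a : Fin (N + 1) → ℕ → ℂ) (m : ℕ) : Fin (N + 1) → ℂ :=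
  fun j => ∑ k ∈ Finset.Icc 1 M, a j k * (k : ℂ) ^ m

/-- the sequence `x` lies in the projective variety with the ideal `p` -/
def SeqIn {N : ℕ} (p : Ideal (MvPolynomial (Fin (N + 1)) ℂ)) (x : ℕ → Fin (N + 1) → ℂ) : Prop :=
  ∀ m, ∀ H ∈ p, IsForm H → eval (x m) H = 0

/-- The projective variety with the ideal `p` is **dominated by an affine space over `L`**: there
is a polynomial map, with coefficients in `L`, from an affine space to the cone over the variety,
whose image is Zariski-dense. -/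
def DomOver (L : Type) [Field L] [Algebra L ℂ] {N : ℕ}
    (p : Ideal (MvPolynomial (Fin (N + 1)) ℂ)) : Prop :=
  ∃ (n : ℕ) (V : Fin (N + 1) → MvPolynomial (Fin n) L), ∀ G : MvPolynomial (Fin (N + 1)) ℂ,
    IsForm G → (G ∈ p ↔ aeval (fun i => map (algebraMap L ℂ) (V i)) G = 0)

/-- **Sequences in unirational varieties.** -/
theorem dirSeq_of_dom (L : Type) [Field L] [Algebra L ℂ] {N : ℕ}
    {p : Ideal (MvPolynomial (Fin (N + 1)) ℂ)} {K : Type} [Field K] [Algebra ℂ K] {w0 : ℕ}
    {y : Fin (N + 1) → K} (hy : FunField p 1 K w0 y) (h : DomOver L p) :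
    ∃ (M : ℕ) (a : Fin (N + 1) → ℕ → L),
      (∀ m, dirSeq M (fun j i => algebraMap L ℂ (a j i)) m ≠ 0) ∧
      SeqIn p (dirSeq M fun j i => algebraMap L ℂ (a j i)) ∧
      SeqGraphDense p (fun m => (m : ℂ)) (dirSeq M fun j i => algebraMap L ℂ (a j i)) := by
  classical
  obtain ⟨w, V, hV'⟩ := h
  obtain ⟨V0, hV0⟩ : ∃ V0 : Fin (N + 1) → MvPolynomial (Fin w) ℂ,
      ∀ i, V0 i = map (algebraMap L ℂ) (V i) := ⟨_, fun i => rfl⟩
  have hV0' : (fun i => map (algebraMap L ℂ) (V i)) = V0 := _root_.funext fun i => (hV0 i).symm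
  rw [hV0'] at hV'
  have hV : ∀ G : MvPolynomial (Fin (N + 1)) ℂ, IsForm G →
      (W602.GT.val y G = 0 ↔ aeval V0 G = 0) := fun G hG =>
    ⟨fun h1 => (hV' G hG).1 (hy.mem G hG h1), fun h1 => hy.sub.mem G ((hV' G hG).2 h1)⟩
  obtain ⟨i0, h0⟩ : ∃ i, y i ≠ 0 := Function.ne_iff.1 hy.sub.ne
  have hVi : V0 i0 ≠ 0 := by
    intro h1
    apply h0
    have h2 := (hV (X i0) ⟨1, isHomogeneous_X _ _⟩).2 (by rw [aeval_X]; exact h1)
    unfold W602.GT.val at h2
    rwa [aeval_X] at h2
  obtain ⟨s, hs⟩ := eventually_atTop.1 (ev_num_ne hVi)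
  -- scaled variables
  let V' : Fin (N + 1) → MvPolynomial (Fin w) L := fun i =>
    aeval (fun l : Fin w => C (((Nat.nth Nat.Prime l : ℕ) : L) ^ s) * X l) (V i)
  obtain ⟨W, hWV⟩ : ∃ W : Fin (N + 1) → MvPolynomial (Fin w) ℂ,
      ∀ i, W i = map (algebraMap L ℂ) (V' i) := ⟨_, fun i => rfl⟩
  have hWe : ∀ (v : Fin w → ℂ) (i : Fin (N + 1)), eval v (W i) =
      eval (fun l : Fin w => ((Nat.nth Nat.Prime l : ℕ) : ℂ) ^ s * v l) (V0 i) := by
    intro v i
    rw [hV0]
    let ψ : MvPolynomial (Fin w) L →+* ℂ := (eval v).comp (map (algebraMap L ℂ))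
    have h1 : eval v (W i) = ψ (aeval (fun l : Fin w =>
        C (((Nat.nth Nat.Prime l : ℕ) : L) ^ s) * X l) (V i)) := by
      rw [hWV]
      rfl
    rw [h1, aeval_def, hom_eval₂, eval_map]
    have h2 : ψ.comp (algebraMap L (MvPolynomial (Fin w) L)) = algebraMap L ℂ := by
      ext c
      simp only [ψ, RingHom.comp_apply, algebraMap_eq, map_C, eval_C]
    rw [h2]
    congr 1
    funext l
    simp only [ψ, RingHom.comp_apply, map_mul, map_X, eval_X, map_pow, map_natCast]
  have hWp : ∀ (m : ℕ) (i : Fin (N + 1)),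
      eval (fun l : Fin w => ((Nat.nth Nat.Prime l : ℕ) : ℂ) ^ m) (W i) =
      eval (fun l : Fin w => ((Nat.nth Nat.Prime l : ℕ) : ℂ) ^ (m + s)) (V0 i) := by
    intro m i
    rw [hWe]
    congr 2
    funext l
    ring
  have hcomp : ∀ (v : Fin w → ℂ) (W0 : Fin (N + 1) → MvPolynomial (Fin w) ℂ)
      (G : MvPolynomial (Fin (N + 1)) ℂ), eval v (aeval W0 G) = eval (fun i => eval v (W0 i)) G := by
    intro v W0 G
    have h2 := MvPolynomial.comp_aeval_apply (f := W0)
      (aeval v : MvPolynomial (Fin w) ℂ →ₐ[ℂ] ℂ) G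
    rw [← MvPolynomial.aeval_eq_eval, ← MvPolynomial.aeval_eq_eval]
    exact h2
  have hiff : ∀ G : MvPolynomial (Fin (N + 1)) ℂ, IsForm G →
      (W602.GT.val y G = 0 ↔ aeval W G = 0) := by
    intro G hG
    rw [hV G hG]
    have hps : ∀ l : Fin w, ((Nat.nth Nat.Prime l : ℕ) : ℂ) ^ s ≠ 0 := fun l =>
      pow_ne_zero _ (Nat.cast_ne_zero.2 (Nat.prime_nth_prime l).ne_zero)
    constructor
    · intro h1
      apply MvPolynomial.funext
      intro v
      rw [hcomp v W G, map_zero]
      have h2 : (fun i => eval v (W i)) = fun i =>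
          eval (fun l : Fin w => ((Nat.nth Nat.Prime l : ℕ) : ℂ) ^ s * v l) (V0 i) :=
        _root_.funext (hWe v)
      have h3 := hcomp (fun l : Fin w => ((Nat.nth Nat.Prime l : ℕ) : ℂ) ^ s * v l) V0 G
      rw [h1, map_zero] at h3
      rw [h2]
      exact h3.symm
    · intro h1
      apply MvPolynomial.funext
      intro v
      rw [hcomp v V0 G, map_zero]
      have h2 : (fun i => eval v (V0 i)) = fun i =>
          eval (fun l : Fin w => (((Nat.nth Nat.Prime l : ℕ) : ℂ) ^ s)⁻¹ * v l) (W i) := by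
        funext i
        rw [hWe]
        have h4 : (fun l : Fin w => ((Nat.nth Nat.Prime l : ℕ) : ℂ) ^ s *
            ((((Nat.nth Nat.Prime l : ℕ) : ℂ) ^ s)⁻¹ * v l)) = v := by
          funext l
          rw [mul_inv_cancel_left₀ (hps l)]
        rw [h4]
      have h3 := hcomp (fun l : Fin w => (((Nat.nth Nat.Prime l : ℕ) : ℂ) ^ s)⁻¹ * v l) W G
      rw [h1, map_zero] at h3
      rw [h2]
      exact h3.symm
  -- coefficients
  let M := Finset.univ.sup fun j => (W j).support.sup num
  let a : Fin (N + 1) → ℕ → L := fun j i => ∑ α ∈ (W j).support with num α = i, (V' j).coeff α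
  have haW : ∀ j i, algebraMap L ℂ (a j i) = ∑ α ∈ (W j).support with num α = i, (W j).coeff α := by
    intro j i
    simp only [a]
    rw [map_sum]
    refine Finset.sum_congr rfl fun α _ => ?_
    rw [hWV]
    exact (coeff_map _ _ _).symm
  have hx : ∀ m, dirSeq M (fun j i => algebraMap L ℂ (a j i)) m = fun j =>
      eval (fun l : Fin w => ((Nat.nth Nat.Prime l : ℕ) : ℂ) ^ m) (W j) := by
    intro m
    funext j
    rw [eval_num_nat]
    have h1 : ∀ α ∈ (W j).support, num α ∈ Finset.Icc 1 M := by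
      intro α hα
      rw [Finset.mem_Icc]
      refine ⟨num_pos α, ?_⟩
      exact (Finset.le_sup (f := num) hα).trans
        (Finset.le_sup (f := fun j => (W j).support.sup num) (Finset.mem_univ j))
    rw [← Finset.sum_fiberwise_of_maps_to h1]
    refine Finset.sum_congr rfl fun i _ => ?_
    change algebraMap L ℂ (a j i) * (i : ℂ) ^ m = _
    rw [haW, Finset.sum_mul]
    refine Finset.sum_congr rfl fun α hα => ?_
    rw [(Finset.mem_filter.1 hα).2]
  have hval : ∀ (m : ℕ) (G : MvPolynomial (Fin (N + 1)) ℂ),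
      eval (dirSeq M (fun j i => algebraMap L ℂ (a j i)) m) G =
      eval (fun l : Fin w => ((Nat.nth Nat.Prime l : ℕ) : ℂ) ^ m) (aeval W G) := by
    intro m G
    rw [hcomp, hx]
  refine ⟨M, a, fun m h1 => ?_, fun m H hH hHf => ?_, fun q e G hG hz i => ?_⟩
  · apply hs (m + s) (Nat.le_add_left s m)
    rw [← hWp]
    have h2 := congrFun (hx m) i0
    rw [h1] at h2
    exact h2.symm
  · rw [hval, (hiff H hHf).1 (hy.sub.mem H hH), map_zero]
  · have h1 := num_indep (fun i => aeval W (G i)) (fun z => by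
      have h2 := hz z
      simp only [hval] at h2
      simp only [Complex.cpow_natCast]
      exact h2) i
    exact hy.mem _ ⟨e, hG i⟩ ((hiff _ ⟨e, hG i⟩).2 h1)

/-- a graph-dense sequence is dense -/
theorem SeqGraphDense.dense {N : ℕ} {p : Ideal (MvPolynomial (Fin (N + 1)) ℂ)} {t : ℕ → ℂ}
    {x : ℕ → Fin (N + 1) → ℂ} (h : SeqGraphDense p t x) : SeqDense p x := by
  rintro H ⟨e, hH⟩ h0
  refine h 1 e (fun _ => H) (fun _ => hH) (fun m => ?_) 0
  rw [Fin.sum_univ_one, h0 m, mul_zero]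

/-- the exponents of a number -/
theorem exists_num {i M : ℕ} (hi : i ∈ Finset.Icc 1 M) : ∃ α : Fin M →₀ ℕ, num α = i := by
  classical
  rw [Finset.mem_Icc] at hi
  have hi0 : i ≠ 0 := by omega
  refine ⟨Finsupp.equivFunOnFinite.symm fun l => i.factorization (Nat.nth Nat.Prime l), ?_⟩
  unfold num
  have h1 : ∏ l : Fin M, Nat.nth Nat.Prime l ^ i.factorization (Nat.nth Nat.Prime l) =
      ∏ q ∈ Finset.univ.image (fun l : Fin M => Nat.nth Nat.Prime l), q ^ i.factorization q := by
    rw [Finset.prod_image]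
    intro l _ l' _ hll
    exact Fin.ext (Nat.nth_injective Nat.infinite_setOfPred_prime hll)
  refine Eq.trans h1 ?_
  conv_rhs => rw [← Nat.factorization_prod_pow_eq_self hi0]
  rw [Finsupp.prod]
  symm
  apply Finset.prod_subset
  · intro q hq
    have hqp : q.Prime := Nat.prime_of_mem_primeFactors (by simpa using hq)
    have hqi : q ≤ i := Nat.le_of_dvd (by omega) (Nat.dvd_of_mem_primeFactors (by simpa using hq))
    rw [Finset.mem_image]
    have h2 : Nat.count Nat.Prime q < M := by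
      have h3 : Nat.count Nat.Prime q < q := by
        have h4 : Nat.count Nat.Prime q = ((Finset.range q).filter Nat.Prime).card :=
          Nat.count_eq_card_filter_range _ _
        rw [h4]
        have h5 : (Finset.range q).filter Nat.Prime ⊆ (Finset.range q).erase 0 := by
          intro a ha
          rw [Finset.mem_filter] at ha
          rw [Finset.mem_erase]
          exact ⟨ha.2.ne_zero, ha.1⟩
        have h6 := Finset.card_le_card h5
        rw [Finset.card_erase_of_mem (Finset.mem_range.2 hqp.pos), Finset.card_range] at h6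
        have := hqp.pos
        omega
      omega
    exact ⟨⟨Nat.count Nat.Prime q, h2⟩, Finset.mem_univ _, Nat.nth_count hqp⟩
  · intro q _ hq
    rw [Finsupp.notMem_support_iff.1 hq, pow_zero]

/-- dense sequences of exponential sums give parametrizations -/
theorem dom_of_dirSeq (L : Type) [Field L] [Algebra L ℂ] {N : ℕ}
    {p : Ideal (MvPolynomial (Fin (N + 1)) ℂ)} {M : ℕ} (a : Fin (N + 1) → ℕ → L)
    (hX : SeqIn p (dirSeq M fun j i => algebraMap L ℂ (a j i)))
    (hd : SeqDense p (dirSeq M fun j i => algebraMap L ℂ (a j i))) : DomOver L p := by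
  classical
  choose! α hα using fun (i : ℕ) (hi : i ∈ Finset.Icc 1 M) => exists_num hi
  refine ⟨M, fun j => ∑ i ∈ Finset.Icc 1 M, monomial (α i) (a j i), fun G hG => ?_⟩
  have hval : ∀ m : ℕ, eval (fun l : Fin M => ((Nat.nth Nat.Prime l : ℕ) : ℂ) ^ m)
      (aeval (fun j => map (algebraMap L ℂ) (∑ i ∈ Finset.Icc 1 M, monomial (α i) (a j i))) G) =
      eval (dirSeq M (fun j i => algebraMap L ℂ (a j i)) m) G := by
    intro m
    have h2 := MvPolynomial.comp_aeval_apply
      (f := fun j => map (algebraMap L ℂ) (∑ i ∈ Finset.Icc 1 M, monomial (α i) (a j i)))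
      (aeval (fun l : Fin M => ((Nat.nth Nat.Prime l : ℕ) : ℂ) ^ m) :
        MvPolynomial (Fin M) ℂ →ₐ[ℂ] ℂ) G
    rw [← MvPolynomial.aeval_eq_eval, ← MvPolynomial.aeval_eq_eval]
    refine h2.trans ?_
    congr 2
    funext j
    rw [map_sum, map_sum]
    refine Finset.sum_congr rfl fun i hi => ?_
    rw [map_monomial, aeval_monomial, Finsupp.prod_fintype _ _ fun _ => pow_zero _]
    congr 1
    conv_rhs => rw [← hα i hi]
    unfold num
    rw [Nat.cast_prod, ← Finset.prod_pow]
    refine Finset.prod_congr rfl fun l _ => ?_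
    rw [Nat.cast_pow]
    ring
  constructor
  · intro hGp
    by_contra hne
    obtain ⟨m, hm⟩ := (ev_num_ne hne).exists
    exact hm (by rw [hval, hX m G hGp hG])
  · intro h0
    apply hd G hG
    intro m
    rw [← hval, h0, map_zero]

/-- exponential sums satisfy linear recurrences with constant coefficients -/
theorem dir_rec (M : ℕ) (a : ℕ → ℂ) :
    CRec (fun m => ∑ k ∈ Finset.Icc 1 M, a k * (k : ℂ) ^ m) := by
  classical
  let R : Polynomial ℂ := ∏ k ∈ Finset.Icc 1 M, (Polynomial.X - Polynomial.C (k : ℂ))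
  have hR : R ≠ 0 := Finset.prod_ne_zero_iff.2 fun k _ => Polynomial.X_sub_C_ne_zero _
  refine ⟨R.natDegree, fun i => R.coeff i, ⟨R.natDegree, le_rfl, ?_⟩, fun m => ?_⟩
  · change ¬ R.coeff R.natDegree = 0
    rw [Polynomial.coeff_natDegree, Polynomial.leadingCoeff_eq_zero]
    exact hR
  · simp only [Finset.mul_sum]
    rw [Finset.sum_comm]
    refine Finset.sum_eq_zero fun k hk => ?_
    have h1 : ∑ i ∈ Finset.range (R.natDegree + 1),
        R.coeff i * (a k * (k : ℂ) ^ (m + i)) = a k * (k : ℂ) ^ m * R.eval (k : ℂ) := by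
      rw [Polynomial.eval_eq_sum_range, Finset.mul_sum]
      exact Finset.sum_congr rfl fun i _ => by ring
    have h2 : R.eval (k : ℂ) = 0 := by
      simp only [R]
      rw [Polynomial.eval_prod]
      exact Finset.prod_eq_zero hk (by simp)
    rw [h1, h2, mul_zero]

theorem CRec.recAlong {t f : ℕ → ℂ} (h : CRec f) : RecAlong t f := by
  obtain ⟨r, c, ⟨k, hk, hk0⟩, h⟩ := h
  exact ⟨r, fun i => Polynomial.C (c i), ⟨k, hk, by rwa [Ne, Polynomial.C_eq_zero]⟩, fun m => by
    simp only [Polynomial.eval_C]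
    exact h m⟩

/-- sequences which are dense over a field of coefficients -/
theorem uni_of_seq {N : ℕ} {p : Ideal (MvPolynomial (Fin (N + 1)) ℂ)} {K : Type} [Field K]
    [Algebra ℂ K] {w : ℕ} {y : Fin (N + 1) → K} (hy : FunField p 1 K w y)
    {B : Subalgebra ℂ (ℕ → ℂ)} (hB : CoefField B) (hback : Back B) {x : ℕ → Fin (N + 1) → ℂ}
    (hx : ∀ j, LinRec B (fun m => x m j)) (hX : ∀ H ∈ p, IsForm H → ∀ᶠ m in atTop, eval (x m) H = 0)
    (hd : DenseSeq B (fun G => G ∈ p) x) :
    Nonempty (K →ₐ[ℂ] FractionRing (MvPolynomial (Fin w) ℂ)) := by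
  obtain ⟨i0, j, W, h0, hj, h1, h2⟩ := uni_seq hB hback hx hy.sub.ne hy.sub.gen hy.sub.dim
    (fun G hG hv => hX G (hy.mem G hG hv) hG)
    (fun q b hb hind e G hG hrel i => hy.sub.mem _ (hd q b hb hind e G hG hrel i))
  exact uni_of_par hy.sub.gen h0 hj h1 h2

end Pool.Agent.TH8.UDE
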